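import Pool.Agent.TH372.SNP.Shape

/-!
# Semistandard tableaux and the branching rule for Schur polynomials
-/

set_option autoImplicit false

namespace Pool.Agent.TH372.SNP

open MvPolynomial Finset

theorem filter_lower (p : ℕ → Prop) [DecidablePred p] : ∀ (n : ℕ)
    (_ : ∀ a b, a < b → b < n → p b → p a),
    ∀ j, j < ((range n).filter p).card ↔ j < n ∧ p j
  | 0, _, j => by simp
  | n + 1, h, j => by
    have ih := filter_lower p n (fun a b hab hb => h a b hab (by omega))
    rw [range_add_one, filter_insert]
    by_cases hn : p n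
    · rw [if_pos hn, card_insert_of_notMem (by simp)]
      have hall : ((range n).filter p) = range n := by
        rw [filter_eq_self]
        intro a ha
        exact h a n (mem_range.1 ha) (by omega) hn
      rw [hall, card_range]
      constructor
      · intro hj
        refine ⟨hj, ?_⟩
        by_cases e : j = n
        · rw [e]; exact hn
        · exact h j n (by omega) (by omega) hn
      · exact fun h => h.1
    · rw [if_neg hn, ih j]
      constructor
      · rintro ⟨h1, h2⟩; exact ⟨by omega, h2⟩
      · rintro ⟨h1, h2⟩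
        refine ⟨?_, h2⟩
        by_contra hj
        have : j = n := by omega
        rw [this] at h2
        exact hn h2

/-- Semistandard tableaux whose row lengths are listed in `w`, with entries below `k`. -/
abbrev Tab (k : ℕ) (w : List ℕ) : Type :=
  {T : ℕ → ℕ → ℕ // (∀ i j, ¬ j < w.getD i 0 → T i j = 0) ∧ (∀ i j, j < w.getD i 0 → T i j < k) ∧
    (∀ i j j', j < j' → j' < w.getD i 0 → T i j ≤ T i j') ∧
    (∀ i i' j, i < i' → j < w.getD i' 0 → T i j < T i' j)}

noncomputable def tabWt (k : ℕ) (w : List ℕ) (T : Tab k w) : MvPolynomial ℕ ℤ :=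
  ∏ i ∈ range w.length, ∏ j ∈ range (w.getD i 0), X (T.1 i j)

/-- Row lengths of the part with entries below `k`. -/
def low (k : ℕ) (w : List ℕ) (T : ℕ → ℕ → ℕ) : List ℕ :=
  (List.range w.length).map (fun i => ((range (w.getD i 0)).filter (fun j => T i j < k)).card)

theorem low_getD (k : ℕ) (w : List ℕ) (T : ℕ → ℕ → ℕ) (i : ℕ) :
    (low k w T).getD i 0 = ((range (w.getD i 0)).filter (fun j => T i j < k)).card := by
  by_cases hi : i < w.length
  · rw [low, List.getD_eq_getElem _ _ (by simpa using hi)]
    simp
  · rw [List.getD_eq_default _ _ (by simpa [low] using hi),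
      List.getD_eq_default _ _ (by simpa using hi)]
    simp

theorem lt_low {k : ℕ} {w : List ℕ} (T : Tab (k + 1) w) (i j : ℕ) :
    j < (low k w T.1).getD i 0 ↔ j < w.getD i 0 ∧ T.1 i j < k := by
  rw [low_getD]
  refine filter_lower (fun j => T.1 i j < k) _ ?_ j
  intro a b hab hb hk
  exact lt_of_le_of_lt (T.2.2.2.1 i a b hab hb) hk

theorem low_inter {k : ℕ} {w : List ℕ} (hw : Anti w) (T : Tab (k + 1) w) :
    Inter w (low k w T.1) := by
  rw [inter_iff]
  refine ⟨by simp [low], fun i => ⟨?_, ?_⟩⟩
  · by_contra h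
    rw [not_le] at h
    have h1 := (lt_low T i ((low k w T.1).getD i 0)).not.1 (lt_irrefl _)
    apply h1
    refine ⟨lt_of_lt_of_le h (hw i), ?_⟩
    have h2 := T.2.2.2.2 i (i + 1) _ (Nat.lt_succ_self i) h
    have h3 := T.2.2.1 (i + 1) _ h
    omega
  · rw [low_getD]
    exact (card_filter_le _ _).trans (by simp)

def tabFwd (k : ℕ) (w : List ℕ) (hw : Anti w) (T : Tab (k + 1) w) :
    Σ v : {v // v ∈ shSys.step w}, Tab k v.1 :=
  ⟨⟨low k w T.1, mem_shStep.2 (low_inter hw T)⟩,
    ⟨fun i j => if j < (low k w T.1).getD i 0 then T.1 i j else 0, by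
      refine ⟨fun i j h => if_neg h, fun i j h => ?_, fun i j j' hjj h => ?_, fun i i' j hii h => ?_⟩
      · change j < (low k w T.1).getD i 0 at h
        change (if j < (low k w T.1).getD i 0 then T.1 i j else 0) < k
        rw [if_pos h]
        exact ((lt_low T i j).1 h).2
      · change j' < (low k w T.1).getD i 0 at h
        change (if j < (low k w T.1).getD i 0 then T.1 i j else 0) ≤
          (if j' < (low k w T.1).getD i 0 then T.1 i j' else 0)
        rw [if_pos h, if_pos (hjj.trans h)]
        exact T.2.2.2.1 i j j' hjj ((lt_low T i j').1 h).1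
      · change j < (low k w T.1).getD i' 0 at h
        change (if j < (low k w T.1).getD i 0 then T.1 i j else 0) <
          (if j < (low k w T.1).getD i' 0 then T.1 i' j else 0)
        have h1 : j < (low k w T.1).getD i 0 :=
          lt_of_lt_of_le h ((low_inter hw T).anti.le hii.le)
        rw [if_pos h, if_pos h1]
        exact T.2.2.2.2 i i' j hii ((lt_low T i' j).1 h).1⟩⟩

theorem tab_ext {k : ℕ} {w : List ℕ} {p q : Σ v : {v // v ∈ shSys.step w}, Tab k v.1}
    (h1 : p.1.1 = q.1.1) (h2 : p.2.1 = q.2.1) : p = q := by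
  rcases p with ⟨⟨t, ht⟩, κ, hκ⟩
  rcases q with ⟨⟨t', ht'⟩, κ', hκ'⟩
  simp only at h1 h2
  subst h1
  subst h2
  rfl

theorem getD_ext {u v : List ℕ} (hl : u.length = v.length) (h : ∀ i, u.getD i 0 = v.getD i 0) :
    u = v := by
  apply List.ext_getElem hl
  intro i hi hi'
  have := h i
  rwa [List.getD_eq_getElem _ _ hi, List.getD_eq_getElem _ _ hi'] at this

theorem tabFwd_bij (k : ℕ) (w : List ℕ) (hw : Anti w) : Function.Bijective (tabFwd k w hw) := by
  constructor
  · intro T T' h
    have h1 : low k w T.1 = low k w T'.1 := congrArg (fun p => p.1.1) h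
    have h2 : (fun i j => if j < (low k w T.1).getD i 0 then T.1 i j else 0) =
        (fun i j => if j < (low k w T'.1).getD i 0 then T'.1 i j else 0) :=
      congrArg (fun p => p.2.1) h
    apply Subtype.ext
    funext i j
    have h3 : (if j < (low k w T.1).getD i 0 then T.1 i j else 0) =
        (if j < (low k w T'.1).getD i 0 then T'.1 i j else 0) := congrFun (congrFun h2 i) j
    rw [← h1] at h3
    by_cases hj : j < (low k w T.1).getD i 0
    · rwa [if_pos hj, if_pos hj] at h3
    · by_cases hS : j < w.getD i 0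
      · have e1 : T.1 i j = k := by
          have h4 := T.2.2.1 i j hS
          have h5 : ¬ T.1 i j < k := fun h => hj ((lt_low T i j).2 ⟨hS, h⟩)
          omega
        rw [h1] at hj
        have e2 : T'.1 i j = k := by
          have h4 := T'.2.2.1 i j hS
          have h5 : ¬ T'.1 i j < k := fun h => hj ((lt_low T' i j).2 ⟨hS, h⟩)
          omega
        rw [e1, e2]
      · rw [T.2.1 i j hS, T'.2.1 i j hS]
  · rintro ⟨⟨v, hv⟩, T, h1, h2, h3, h4⟩
    have hI := mem_shStep.1 hv
    have hvw : ∀ i j, j < v.getD i 0 → j < w.getD i 0 := fun i j h =>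
      lt_of_lt_of_le h ((inter_iff.1 hI).2 i).2
    have hwv : ∀ i i' j, i < i' → j < w.getD i' 0 → j < v.getD i 0 := fun i i' j hii h =>
      lt_of_lt_of_le h ((hw.le (show i + 1 ≤ i' from hii)).trans ((inter_iff.1 hI).2 i).1)
    simp only at h1 h2 h3 h4
    let S : Tab (k + 1) w := ⟨fun i j => if j < v.getD i 0 then T i j else
        if j < w.getD i 0 then k else 0, by
      refine ⟨fun i j h => ?_, fun i j h => ?_, fun i j j' hjj h => ?_, fun i i' j hii h => ?_⟩
      · simp only
        rw [if_neg (fun h' => h (hvw i j h')), if_neg h]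
      · simp only
        split_ifs with h'
        · have := h2 i j h'; omega
        · omega
      · simp only
        by_cases hj' : j' < v.getD i 0
        · rw [if_pos hj', if_pos (hjj.trans hj')]
          exact h3 i j j' hjj hj'
        · rw [if_neg hj', if_pos h]
          split_ifs with ha hb
          · exact (h2 i j ha).le
          · exact le_rfl
          · exact Nat.zero_le _
      · simp only
        have ha := hwv i i' j hii h
        rw [if_pos ha]
        split_ifs with hb
        · exact h4 i i' j hii hb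
        · exact h2 i j ha⟩
    have key : low k w S.1 = v := by
      apply getD_ext
      · rw [(inter_iff.1 hI).1]; simp [low]
      · intro i
        have hj : ∀ j, j < (low k w S.1).getD i 0 ↔ j < v.getD i 0 := by
          intro j
          rw [lt_low S i j]
          change (j < w.getD i 0 ∧ (if j < v.getD i 0 then T i j else
            if j < w.getD i 0 then k else 0) < k) ↔ _
          constructor
          · rintro ⟨ha, hb⟩
            by_contra hc
            rw [if_neg hc, if_pos ha] at hb
            omega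
          · intro ha
            rw [if_pos ha]
            exact ⟨hvw i j ha, h2 i j ha⟩
        apply le_antisymm
        · by_contra hc
          rw [not_le] at hc
          exact absurd ((hj _).1 hc) (lt_irrefl _)
        · by_contra hc
          rw [not_le] at hc
          exact absurd ((hj _).2 hc) (lt_irrefl _)
    refine ⟨S, tab_ext key ?_⟩
    funext i j
    change (if j < (low k w S.1).getD i 0 then (if j < v.getD i 0 then T i j else
        if j < w.getD i 0 then k else 0) else 0) = T i j
    rw [key]
    split_ifs with h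
    · rfl
    · exact (h1 i j h).symm

noncomputable def tabEquiv (k : ℕ) (w : List ℕ) (hw : Anti w) :
    Tab (k + 1) w ≃ (Σ v : {v // v ∈ shSys.step w}, Tab k v.1) :=
  Equiv.ofBijective _ (tabFwd_bij k w hw)

theorem tabWt_eq (k : ℕ) (w : List ℕ) (hw : Anti w) (T : Tab (k + 1) w) :
    tabWt (k + 1) w T = X k ^ (shSys.size w - shSys.size (tabEquiv k w hw T).1.1) *
      tabWt k (tabEquiv k w hw T).1.1 (tabEquiv k w hw T).2 := by
  set v := low k w T.1 with hv
  have e1 : (tabEquiv k w hw T).1.1 = v := rfl
  have hI := low_inter hw T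
  have hle : ∀ i, v.getD i 0 ≤ w.getD i 0 := fun i => ((inter_iff.1 hI).2 i).2
  have hlen : v.length = w.length := hI.length
  have e2 : tabWt k (tabEquiv k w hw T).1.1 (tabEquiv k w hw T).2 =
      ∏ i ∈ range w.length, ∏ j ∈ range (v.getD i 0), (X (T.1 i j) : MvPolynomial ℕ ℤ) := by
    unfold tabWt
    change (∏ i ∈ range v.length, ∏ j ∈ range (v.getD i 0),
      (X (if j < v.getD i 0 then T.1 i j else 0) : MvPolynomial ℕ ℤ)) = _
    rw [hlen]
    refine prod_congr rfl fun i _ => prod_congr rfl fun j hj => ?_
    rw [mem_range] at hj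
    change (X (if j < v.getD i 0 then T.1 i j else 0) : MvPolynomial ℕ ℤ) = _
    rw [if_pos hj]
  have e3 : shSys.size w - shSys.size v = ∑ i ∈ range w.length, (w.getD i 0 - v.getD i 0) := by
    change w.sum - v.sum = _
    rw [sum_getD w, sum_getD v, hlen]
    have : ∑ i ∈ range w.length, w.getD i 0 = ∑ i ∈ range w.length, (w.getD i 0 - v.getD i 0) +
        ∑ i ∈ range w.length, v.getD i 0 := by
      rw [← sum_add_distrib]
      exact sum_congr rfl fun i _ => (Nat.sub_add_cancel (hle i)).symm
    omega
  rw [e2, e1, e3, ← prod_pow_eq_pow_sum]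
  unfold tabWt
  rw [← prod_mul_distrib]
  refine prod_congr rfl fun i _ => ?_
  rw [← prod_range_mul_prod_Ico _ (hle i), mul_comm]
  congr 1
  rw [prod_congr rfl (g := fun _ => (X k : MvPolynomial ℕ ℤ)), prod_const, Nat.card_Ico]
  intro j hj
  rw [mem_Ico] at hj
  have h1 := T.2.2.1 i j hj.2
  have h2 : ¬ T.1 i j < k := fun h => absurd ((lt_low T i j).2 ⟨hj.2, h⟩) (by rw [← hv]; omega)
  have h3 : T.1 i j = k := by omega
  rw [h3]

theorem tab_zero (w : List ℕ) :
    ∑ᶠ T : Tab 0 w, tabWt 0 w T = C (shSys.base w : ℤ) := by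
  by_cases hw : w.sum = 0
  · have h0 : ∀ i, w.getD i 0 = 0 := by
      intro i
      by_cases hi : i < w.length
      · rw [sum_getD, sum_eq_zero_iff] at hw
        exact hw i (mem_range.2 hi)
      · rw [List.getD_eq_default _ _ (by simpa using hi)]
    let _ : Unique (Tab 0 w) :=
      { default := ⟨fun _ _ => 0, fun _ _ _ => rfl, fun i j h => by rw [h0] at h; omega,
          fun _ _ _ _ _ => le_rfl, fun i i' j _ h => by rw [h0] at h; omega⟩
        uniq := fun T => Subtype.ext (funext fun i => funext fun j => T.2.1 i j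
          (by rw [h0]; omega)) }
    rw [finsum_unique]
    have : shSys.base w = 1 := if_pos hw
    rw [this]
    unfold tabWt
    rw [prod_eq_one]
    · simp
    · intro i _
      rw [h0, range_zero, prod_empty]
  · have : IsEmpty (Tab 0 w) := by
      constructor
      intro T
      apply hw
      rw [sum_getD]
      refine sum_eq_zero fun i _ => ?_
      by_contra h
      exact absurd (T.2.2.1 i 0 (Nat.pos_of_ne_zero h)) (Nat.not_lt_zero _)
    rw [finsum_of_isEmpty]
    have : shSys.base w = 0 := if_neg hw
    rw [this]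
    simp

theorem tab_finite_zero (w : List ℕ) : Finite (Tab 0 w) := by
  have : Subsingleton (Tab 0 w) := by
    constructor
    intro T T'
    apply Subtype.ext
    funext i j
    by_cases hj : j < w.getD i 0
    · exact absurd (T.2.2.1 i j hj) (Nat.not_lt_zero _)
    · rw [T.2.1 i j hj, T'.2.1 i j hj]
  infer_instance

/-- The Schur polynomial in `k` variables of the shape `w`. -/
noncomputable def tabPoly (k : ℕ) (w : List ℕ) : MvPolynomial ℕ ℤ := ∑ᶠ T : Tab k w, tabWt k w T

theorem tabPoly_follows : shSys.Follows Anti tabPoly :=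
  follows_of_equiv shSys Anti (fun k w => Tab k w) tabWt (fun w _ => tab_finite_zero w)
    (fun w _ v hv => (mem_shStep.1 hv).anti) (fun w _ => tab_zero w) tabEquiv tabWt_eq
    (fun w _ v hv => (mem_shStep.1 hv).sum_le)

theorem tabPoly_rowLens (k : ℕ) (μ : YoungDiagram) :
    (∑ᶠ T : {T : SemistandardYoungTableau μ // ∀ p ∈ μ.cells, T p.1 p.2 < k},
      ∏ p ∈ μ.cells, (MvPolynomial.X (T.1 p.1 p.2) : MvPolynomial ℕ ℤ)) =
      tabPoly k μ.rowLens := by
  have hmem : ∀ i j, (i, j) ∈ μ ↔ j < μ.rowLens.getD i 0 := by
    intro i j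
    rw [YoungDiagram.mem_iff_lt_rowLen]
    by_cases hi : i < μ.rowLens.length
    · rw [List.getD_eq_getElem _ _ hi, YoungDiagram.get_rowLens]
    · rw [List.getD_eq_default _ _ (by simpa using hi)]
      rw [YoungDiagram.length_rowLens] at hi
      have : (i, 0) ∉ μ := by
        rw [YoungDiagram.mem_iff_lt_colLen]; exact hi
      rw [YoungDiagram.mem_iff_lt_rowLen] at this
      omega
  refine finsum_eq_of_bijective
    (fun T => (⟨fun i j => T.1 i j, ?_, ?_, ?_, ?_⟩ : Tab k μ.rowLens)) ?_ ?_
  · intro i j h
    exact T.1.zeros (fun h' => h ((hmem i j).1 h'))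
  · intro i j h
    exact T.2 (i, j) ((hmem i j).2 h)
  · intro i j j' hjj h
    exact T.1.row_weak hjj ((hmem i j').2 h)
  · intro i i' j hii h
    exact T.1.col_strict hii ((hmem i' j).2 h)
  · constructor
    · intro T T' h
      apply Subtype.ext
      apply SemistandardYoungTableau.ext
      intro i j
      exact congrFun (congrFun (congrArg Subtype.val h) i) j
    · rintro ⟨T, h1, h2, h3, h4⟩
      refine ⟨⟨⟨T, fun {i j1 j2} h h' => h3 i j1 j2 h ((hmem i j2).1 h'),
        fun {i1 i2 j} h h' => h4 i1 i2 j h ((hmem i2 j).1 h'),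
        fun {i j} h => h1 i j (fun h' => h ((hmem i j).2 h'))⟩, ?_⟩, rfl⟩
      rintro ⟨i, j⟩ hp
      exact h2 i j ((hmem i j).1 hp)
  · intro T
    unfold tabWt
    refine prod_finset_product _ _ _ ?_ (f := fun p => (X (T.1 p.1 p.2) : MvPolynomial ℕ ℤ))
    rintro ⟨i, j⟩
    simp only [mem_range]
    rw [YoungDiagram.mem_cells, hmem]
    constructor
    · intro h
      refine ⟨?_, h⟩
      by_contra hi
      rw [List.getD_eq_default _ _ (by simpa using hi)] at h
      omega
    · exact fun h => h.2

theorem rowLens_anti (μ : YoungDiagram) : Anti μ.rowLens := by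
  intro i
  have hs := μ.rowLens_sorted
  by_cases hi : i + 1 < μ.rowLens.length
  · rw [List.getD_eq_getElem _ _ hi, List.getD_eq_getElem _ _ (by omega)]
    rw [YoungDiagram.get_rowLens, YoungDiagram.get_rowLens]
    exact μ.rowLen_anti _ _ (Nat.le_succ i)
  · rw [List.getD_eq_default _ _ (by simpa using hi)]
    exact Nat.zero_le _

end Pool.Agent.TH372.SNP
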