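import Pool.Agent.TH372.SNP.Bits
import Pool.Agent.TH372.SNP.Tab

/-!
# The counterexample
-/

set_option autoImplicit false

namespace Pool.Agent.TH372.SNP

open Finset MvPolynomial

theorem eqT_eq : ∀ {s t : List (List ℕ × ℕ)}, eqT s t = true → s = t
  | [], [], _ => rfl
  | p :: s, q :: t, h => by
    rw [eqT, Bool.and_eq_true, Bool.and_eq_true] at h
    have h1 := eqL_eq h.1.1
    have h2 := Nat.eq_of_beq_eq_true h.1.2
    rw [eqT_eq h.2, Prod.ext h1 h2]
  | [], _ :: _, h => by simp [eqT] at h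
  | _ :: _, [], h => by simp [eqT] at h

theorem checkG_spec : ∀ {L : List (List ℕ × ℕ)}, checkG L = true → ∀ p ∈ L, ngc 12 4095 p.1 = p.2
  | [], _, p, hp => by simp at hp
  | q :: L, h, p, hp => by
    rw [checkG, Bool.and_eq_true] at h
    rw [List.mem_cons] at hp
    rcases hp with rfl | hp
    · exact Nat.eq_of_beq_eq_true h.1
    · exact checkG_spec h.2 p hp

theorem V0_ok : ∀ p ∈ V0, p.1.Pairwise (· ≥ ·) ∧ (∀ x ∈ p.1, 0 < x) ∧ p.1.sum = 12 := by
  decide +kernel

theorem dec_of_pairwise : ∀ {w : List ℕ}, w.Pairwise (· ≥ ·) → Dec w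
  | [], _ => trivial
  | a :: w, h => by
    rw [List.pairwise_cons] at h
    refine ⟨?_, dec_of_pairwise h.2⟩
    cases w with
    | nil => simp
    | cons b w => exact h.1 b List.mem_cons_self

theorem anti_of_pairwise : ∀ {w : List ℕ}, w.Pairwise (· ≥ ·) → Anti w
  | [], _, i => by simp
  | a :: w, h, i => by
    rw [List.pairwise_cons] at h
    cases i with
    | zero =>
      cases w with
      | nil => simp
      | cons b w => simpa using h.1 b List.mem_cons_self
    | succ i =>
      simp only [List.getD_cons_succ]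
      exact anti_of_pairwise h.2 i

theorem V0_symFun : SymFun 12 (ev V0) :=
  ev_symFun 12 V0 fun p hp => ⟨anti_of_pairwise (V0_ok p hp).1, (V0_ok p hp).2.2⟩

theorem rep_full : rep 4095 = univ := by decide

theorem G_symFun : SymFun 12 (fun l => (colSys G12).cnt l univ) := by
  have h := (col_nice G12).symFun univ trivial
  have h2 : (colSys G12).size univ = 12 := rfl
  rwa [h2] at h

theorem length_le_sum : ∀ {l : List ℕ}, (∀ x ∈ l, 0 < x) → l.length ≤ l.sum
  | [], _ => le_rfl
  | a :: l, h => by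
    have h1 := h a List.mem_cons_self
    have h2 := length_le_sum (fun x hx => h x (List.mem_cons_of_mem _ hx))
    rw [List.length_cons, List.sum_cons]
    omega

theorem cnt_eq_ngc (l : List ℕ) (h0 : ∀ x ∈ l, 0 < x) (hs : l.sum = 12) :
    (colSys G12).cnt l univ = ngc 12 4095 l := by
  rw [← rep_full]
  refine ngc_eq 12 4095 l (by norm_num) h0 ?_ ?_
  · rw [rep_full, hs]; rfl
  · rw [← hs]; exact length_le_sum h0

theorem main_eq (l : List ℕ) : (colSys G12).cnt l univ = ev V0 l := by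
  refine SymFun.ext G_symFun V0_symFun (fun l hp h0 hs => ?_) l
  have h1 : (l, ev V0 l) ∈ tab := by
    rw [← eqT_eq tree_ok]
    refine mem_evalTree 12 12 12 V0 l (fun p hp => dec_of_pairwise (V0_ok p hp).1) hp h0 hs ?_ ?_
    · intro x hx
      rw [← hs]
      exact List.le_sum_of_mem hx
    · rw [← hs]; exact length_le_sum h0
  have h2 := checkG_spec tabG_ok _ h1
  rw [cnt_eq_ngc l h0 hs]
  exact h2

theorem coeff_sum_list (m : ℕ →₀ ℕ) (f : List ℕ → MvPolynomial ℕ ℤ) :
    ∀ L : List (List ℕ × ℕ), coeff m ((L.map (fun p => p.2 • f p.1)).sum) =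
      (L.map (fun p => (p.2 : ℤ) * coeff m (f p.1))).sum
  | [] => by simp
  | p :: L => by
    rw [List.map_cons, List.sum_cons, coeff_add, coeff_sum_list m f L, List.map_cons, List.sum_cons]
    rw [coeff_smul, nsmul_eq_mul]

theorem poly_eq (k : ℕ) : colPoly G12 k univ = (V0.map (fun p => p.2 • tabPoly k p.1)).sum := by
  ext m
  rw [coeff_sum_list]
  by_cases hm : ∀ i, k ≤ i → m i = 0
  · obtain ⟨l, rfl, rfl⟩ := exists_toF k m hm
    rw [(colPoly_follows G12).coeff_toF l univ trivial, main_eq l]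
    unfold ev
    rw [Nat.cast_list_sum, List.map_map]
    refine congrArg List.sum ?_
    refine List.map_congr_left fun p hp => ?_
    rw [tabPoly_follows.coeff_toF l p.1 (anti_of_pairwise (V0_ok p hp).1)]
    exact Nat.cast_mul _ _
  · push Not at hm
    obtain ⟨i, hi, hmi⟩ := hm
    rw [(colPoly_follows G12).coeff_zero k univ trivial m i hi hmi]
    symm
    apply List.sum_eq_zero
    intro x hx
    rw [List.mem_map] at hx
    obtain ⟨p, hp, rfl⟩ := hx
    rw [tabPoly_follows.coeff_zero k p.1 (anti_of_pairwise (V0_ok p hp).1) m i hi hmi, mul_zero]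

/-- The Young diagram with given row lengths. -/
noncomputable def yd (w : List ℕ) : YoungDiagram := by
  classical
  exact if h : w.SortedGE then YoungDiagram.ofRowLens w h else ⊥

theorem rowLens_yd {w : List ℕ} (h : w.Pairwise (· ≥ ·)) (h0 : ∀ x ∈ w, 0 < x) :
    (yd w).rowLens = w := by
  have hs : w.SortedGE := List.sortedGE_iff_pairwise.2 h
  rw [yd, dif_pos hs]
  exact YoungDiagram.rowLens_ofRowLens_eq_self h0

theorem sum_list_single (g : YoungDiagram → MvPolynomial ℕ ℤ) : ∀ L : List (List ℕ × ℕ),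
    ((L.map (fun p => Finsupp.single (yd p.1) p.2)).sum).sum (fun μ a => a • g μ) =
      (L.map (fun p => p.2 • g (yd p.1))).sum
  | [] => by simp
  | p :: L => by
    have h0 : ∀ μ, (fun (μ : YoungDiagram) (a : ℕ) => a • g μ) μ 0 = 0 := fun μ => zero_smul _ _
    rw [List.map_cons, List.sum_cons, Finsupp.sum_add_index' (h := fun μ a => a • g μ) h0
      (fun _ _ _ => add_smul _ _ _), sum_list_single g L,
      Finsupp.sum_single_index (h := fun μ a => a • g μ) (h0 _), List.map_cons, List.sum_cons]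

theorem schur_pos (k : ℕ) : ∃ c : YoungDiagram →₀ ℕ,
    (∑ᶠ κ : {κ : Fin 12 → Fin k // ∀ u v, G12.Adj u v → κ u ≠ κ v},
        ∏ v, (MvPolynomial.X ((κ.1 v : ℕ)) : MvPolynomial ℕ ℤ)) =
      c.sum (fun μ a => a • ∑ᶠ T : {T : SemistandardYoungTableau μ //
          ∀ p ∈ μ.cells, T p.1 p.2 < k},
        ∏ p ∈ μ.cells, (MvPolynomial.X (T.1 p.1 p.2) : MvPolynomial ℕ ℤ)) := by
  refine ⟨(V0.map (fun p => Finsupp.single (yd p.1) p.2)).sum, ?_⟩
  rw [colPoly_univ, sum_list_single, poly_eq]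
  congr 1
  refine List.map_congr_left fun p hp => ?_
  rw [tabPoly_rowLens, rowLens_yd (V0_ok p hp).1 (V0_ok p hp).2.1]

theorem coeff_four (a b c d : ℕ) :
    coeff (toF [d, c, b, a]) (∑ᶠ κ : {κ : Fin 12 → Fin 4 // ∀ u v, G12.Adj u v → κ u ≠ κ v},
        ∏ v, (MvPolynomial.X ((κ.1 v : ℕ)) : MvPolynomial ℕ ℤ)) =
      ((colSys G12).cnt [d, c, b, a] univ : ℤ) := by
  rw [colPoly_univ]
  exact (colPoly_follows G12).coeff_toF [d, c, b, a] univ trivial

theorem mem_four (a b c d : ℕ) : toF [d, c, b, a] ∈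
    (∑ᶠ κ : {κ : Fin 12 → Fin 4 // ∀ u v, G12.Adj u v → κ u ≠ κ v},
        ∏ v, (MvPolynomial.X ((κ.1 v : ℕ)) : MvPolynomial ℕ ℤ)).support ↔
      (colSys G12).cnt [d, c, b, a] univ ≠ 0 := by
  rw [MvPolynomial.mem_support_iff, coeff_four]
  exact Nat.cast_ne_zero

theorem cnt_6222 : (colSys G12).cnt [2, 2, 2, 6] univ ≠ 0 := by
  rw [cnt_eq_ngc _ (by decide) (by decide)]
  decide +kernel

theorem cnt_444 : (colSys G12).cnt [0, 4, 4, 4] univ ≠ 0 := by
  rw [(col_nice G12).zero_cons _ _ trivial, cnt_eq_ngc _ (by decide) (by decide)]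
  decide +kernel

theorem cnt_5331 : (colSys G12).cnt [1, 3, 3, 5] univ = 0 := by
  rw [cnt_eq_ngc _ (by decide) (by decide)]
  decide +kernel

theorem toF_four (a b c d i : ℕ) : toF [d, c, b, a] i =
    if i = 0 then a else if i = 1 then b else if i = 2 then c else if i = 3 then d else 0 := by
  simp only [toF, List.length_cons, List.length_nil, Finsupp.add_apply, Finsupp.single_apply,
    Finsupp.zero_apply]
  split_ifs <;> omega

end Pool.Agent.TH372.SNP
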