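import Pool.Agent.TH372.SNP.Kern

/-!
# The graph, and correctness of the bit mask computations
-/

set_option autoImplicit false

namespace Pool.Agent.TH372.SNP

open Finset

/-- The graph on twelve vertices with neighbourhoods `adjL`. -/
def G12 : SimpleGraph (Fin 12) where
  Adj u v := Nat.testBit (adjM u) v = true
  symm := ⟨by decide⟩
  loopless := ⟨by decide⟩

instance : DecidableRel G12.Adj := fun u v =>
  inferInstanceAs (Decidable (Nat.testBit (adjM u) v = true))

/-- The set of vertices of a bit mask. -/
def rep (m : ℕ) : Finset (Fin 12) := univ.filter (fun v => Nat.testBit m v = true)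

theorem mem_rep {m : ℕ} {v : Fin 12} : v ∈ rep m ↔ Nat.testBit m v = true := by
  simp [rep]

theorem testBit_lt {m i : ℕ} (hm : m < 4096) (h : Nat.testBit m i = true) : i < 12 := by
  by_contra hi
  rw [not_lt] at hi
  have h0 : 2 ^ 12 ≤ 2 ^ i := Nat.pow_le_pow_right (by norm_num) hi
  have h1 : m < 2 ^ i := by
    have : (2 : ℕ) ^ 12 = 4096 := by norm_num
    omega
  rw [Nat.testBit_lt_two_pow h1] at h
  exact absurd h (by decide)

theorem rep_inj {m m' : ℕ} (hm : m < 4096) (hm' : m' < 4096) (h : rep m = rep m') : m = m' := by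
  apply Nat.eq_of_testBit_eq
  intro i
  by_cases hi : i < 12
  · have := Finset.ext_iff.1 h ⟨i, hi⟩
    rw [mem_rep, mem_rep] at this
    exact Bool.eq_iff_iff.2 this
  · have h1 : ¬ Nat.testBit m i = true := fun h => hi (testBit_lt hm h)
    have h2 : ¬ Nat.testBit m' i = true := fun h => hi (testBit_lt hm' h)
    rw [Bool.not_eq_true] at h1 h2
    rw [h1, h2]

theorem rep_surj (B : Finset (Fin 12)) : ∃ A, A < 4096 ∧ rep A = B := by
  have hinj : Function.Injective (fun m : Fin 4096 => rep m) := fun m m' h =>
    Fin.ext (rep_inj m.2 m'.2 h)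
  have hbij : Function.Bijective (fun m : Fin 4096 => rep m) := by
    rw [Fintype.bijective_iff_injective_and_card]
    refine ⟨hinj, ?_⟩
    rw [Fintype.card_fin, Fintype.card_finset, Fintype.card_fin]
    norm_num
  obtain ⟨m, hm⟩ := hbij.2 B
  exact ⟨m, m.2, hm⟩

theorem pop_eq (A : ℕ) : pop A = (rep A).card := by
  have h1 : (rep A).map Fin.valEmbedding = (range 12).filter (fun u => Nat.testBit A u = true) := by
    ext i
    rw [mem_map, mem_filter, mem_range]
    constructor
    · rintro ⟨v, hv, rfl⟩
      exact ⟨v.2, mem_rep.1 hv⟩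
    · rintro ⟨hi, h⟩
      exact ⟨⟨i, hi⟩, mem_rep.2 h, rfl⟩
  have h2 : ((range 12).filter (fun u => Nat.testBit A u = true)).card =
    ((List.range 12).filter (fun u => decide (Nat.testBit A u = true))).length := rfl
  rw [← card_map Fin.valEmbedding, h1, h2]
  simp only [Bool.decide_eq_true]
  rfl

theorem stableM_iff {A : ℕ} (hA : A < 4096) : stableM A = true ↔ Stable G12 (rep A) := by
  unfold stableM
  rw [List.all_eq_true]
  constructor
  · intro h u hu v hv huv
    rw [mem_rep] at hu hv
    have h1 := h u (List.mem_range.2 u.2)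
    rw [hu, Bool.not_true, Bool.false_or] at h1
    have h1 := Nat.eq_of_beq_eq_true h1
    have h2 : Nat.testBit (Nat.land (adjM u) A) v = true := by
      have := Nat.testBit_and (adjM u) A v
      rw [show Nat.land (adjM u) A = (adjM u) &&& A from rfl, this, hv, Bool.and_true]
      exact huv
    rw [h1, Nat.zero_testBit] at h2
    exact absurd h2 (by decide)
  · intro h u hu
    rw [List.mem_range] at hu
    cases h1 : Nat.testBit A u with
    | false => rfl
    | true =>
      rw [Bool.not_true, Bool.false_or]
      suffices hz : Nat.land (adjM u) A = 0 by rw [hz]; rfl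
      apply Nat.eq_of_testBit_eq
      intro i
      rw [Nat.zero_testBit, show Nat.land (adjM u) A = (adjM u) &&& A from rfl, Nat.testBit_and]
      by_contra h2
      rw [Bool.not_eq_false, Bool.and_eq_true] at h2
      have hi := testBit_lt hA h2.2
      exact h ⟨u, hu⟩ (mem_rep.2 h1) ⟨i, hi⟩ (mem_rep.2 h2.2) h2.1

theorem stabs_spec {v : Fin 12} {a A : ℕ} : A ∈ stabs v a ↔
    A < 4096 ∧ v ∈ rep A ∧ Stable G12 (rep A) ∧ (rep A).card = a := by
  constructor
  · intro h
    by_cases ha : a < 7
    · have h1 := check1_ok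
      unfold check1 at h1
      rw [List.all_eq_true] at h1
      have h2 := h1 v (List.mem_range.2 v.2)
      rw [List.all_eq_true] at h2
      have h3 := h2 a (List.mem_range.2 ha)
      rw [List.all_eq_true] at h3
      have h4 := h3 A h
      simp only [Bool.and_eq_true] at h4
      obtain ⟨⟨⟨h5, h6⟩, h7⟩, h8⟩ := h4
      have h5' : A < 4096 := by simpa [Nat.blt_eq] using h5
      refine ⟨h5', mem_rep.2 h6, (stableM_iff h5').1 h7, ?_⟩
      rw [← pop_eq]
      exact Nat.eq_of_beq_eq_true h8
    · exfalso
      have : ∀ v : Fin 12, (stT.getD (v : ℕ) []).length = 7 := by decide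
      rw [stabs, List.getD_eq_default _ _ (by rw [this]; omega)] at h
      simp at h
  · rintro ⟨h1, h2, h3, h4⟩
    have h5 := check2_ok
    unfold check2 at h5
    rw [List.all_eq_true] at h5
    have h6 := h5 A (List.mem_range.2 h1)
    rw [(stableM_iff h1).2 h3, Bool.not_true, Bool.false_or, List.all_eq_true] at h6
    have h7 := h6 v (List.mem_range.2 v.2)
    rw [mem_rep.1 h2, Bool.not_true, Bool.false_or, pop_eq, h4] at h7
    exact List.elem_iff.1 h7

theorem incr_nodup : ∀ {l : List ℕ}, incr l = true → l.Pairwise (· < ·)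
  | [], _ => List.Pairwise.nil
  | [_], _ => List.pairwise_singleton _ _
  | a :: b :: l, h => by
    rw [incr, Bool.and_eq_true] at h
    have ih := incr_nodup h.2
    have hab : a < b := by simpa [Nat.blt_eq] using h.1
    rw [List.pairwise_cons]
    refine ⟨fun x hx => ?_, ih⟩
    rw [List.mem_cons] at hx
    rcases hx with rfl | hx
    · exact hab
    · exact hab.trans ((List.pairwise_cons.1 ih).1 x hx)

theorem stabs_nodup (v : Fin 12) (a : ℕ) : (stabs v a).Nodup := by
  by_cases ha : a < 7
  · have h1 := check3_ok
    unfold check3 at h1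
    rw [List.all_eq_true] at h1
    have h2 := h1 v (List.mem_range.2 v.2)
    rw [List.all_eq_true] at h2
    have h3 := h2 a (List.mem_range.2 ha)
    exact (incr_nodup h3).imp (fun h => ne_of_lt h)
  · have : ∀ v : Fin 12, (stT.getD (v : ℕ) []).length = 7 := by decide
    rw [stabs, List.getD_eq_default _ _ (by rw [this]; omega)]
    exact List.nodup_nil

theorem land_iff {A m : ℕ} (hA : A < 4096) : Nat.land A m = A ↔ rep A ⊆ rep m := by
  constructor
  · intro h v hv
    rw [mem_rep] at hv ⊢
    rw [← h, show Nat.land A m = A &&& m from rfl, Nat.testBit_and, Bool.and_eq_true] at hv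
    exact hv.2
  · intro h
    apply Nat.eq_of_testBit_eq
    intro i
    rw [show Nat.land A m = A &&& m from rfl, Nat.testBit_and]
    cases h1 : Nat.testBit A i with
    | false => rfl
    | true =>
      have hi := testBit_lt hA h1
      have := h (mem_rep.2 (show Nat.testBit A (⟨i, hi⟩ : Fin 12) = true from h1))
      rw [mem_rep] at this
      rw [Bool.true_and]
      exact this

theorem rep_xor {A m : ℕ} (h : rep A ⊆ rep m) : rep (Nat.xor m A) = rep m \ rep A := by
  ext v
  rw [mem_sdiff, mem_rep, mem_rep, mem_rep, show Nat.xor m A = m ^^^ A from rfl, Nat.testBit_xor]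
  have h1 : Nat.testBit A v = true → Nat.testBit m v = true := fun h2 =>
    mem_rep.1 (h (mem_rep.2 h2))
  cases h2 : Nat.testBit m v <;> cases h3 : Nat.testBit A v <;> simp_all

theorem xor_lt {A m : ℕ} (hm : m < 4096) (hA : A < 4096) : Nat.xor m A < 4096 :=
  Nat.xor_lt_two_pow (n := 12) hm hA

theorem sumF_eq {m : ℕ} (v : Fin 12) (a : ℕ) (g : ℕ → List ℕ → ℕ) (r : List ℕ)
    (hg : ∀ A ∈ stabs v a, rep A ⊆ rep m → (colSys G12).cnt r (rep m \ rep A) =
      g (Nat.xor m A) r) :
    ∑ B ∈ stv G12 v a (rep m), (colSys G12).cnt r (rep m \ B) = sumF g m r (stabs v a) := by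
  have h1 : stv G12 v a (rep m) =
      (((stabs v a).filter (fun A => Nat.beq (Nat.land A m) A)).map rep).toFinset := by
    ext B
    rw [stv, stb, mem_filter, mem_filter, mem_powerset, List.mem_toFinset, List.mem_map]
    constructor
    · rintro ⟨⟨h1, h2, h3⟩, h4⟩
      obtain ⟨A, hA, rfl⟩ := rep_surj B
      refine ⟨A, List.mem_filter.2 ⟨stabs_spec.2 ⟨hA, h4, h2, h3⟩, ?_⟩, rfl⟩
      rw [(land_iff hA).2 h1]
      exact Nat.beq_refl A
    · rintro ⟨A, hA, rfl⟩
      rw [List.mem_filter] at hA
      obtain ⟨h1, h2, h3, h4⟩ := stabs_spec.1 hA.1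
      exact ⟨⟨(land_iff h1).1 (Nat.eq_of_beq_eq_true hA.2), h3, h4⟩, h2⟩
  have h2 : (((stabs v a).filter (fun A => Nat.beq (Nat.land A m) A)).map rep).Nodup := by
    apply List.Nodup.map_on
    · intro A hA B hB h
      rw [List.mem_filter] at hA hB
      exact rep_inj (stabs_spec.1 hA.1).1 (stabs_spec.1 hB.1).1 h
    · exact (stabs_nodup v a).filter _
  rw [h1, List.sum_toFinset _ h2, List.map_map]
  have h3 : ∀ L : List ℕ, (∀ A ∈ L, A ∈ stabs v a) →
      ((L.filter (fun A => Nat.beq (Nat.land A m) A)).map
        ((fun B => (colSys G12).cnt r (rep m \ B)) ∘ rep)).sum = sumF g m r L := by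
    intro L
    induction L with
    | nil => intro _; rfl
    | cons A L ih =>
      intro hL
      have ih' := ih (fun B hB => hL B (List.mem_cons_of_mem _ hB))
      have hA := hL A List.mem_cons_self
      rw [sumF, List.filter_cons]
      cases hb : Nat.beq (Nat.land A m) A with
      | true =>
        rw [if_pos rfl, List.map_cons, List.sum_cons, cond_true, ih']
        have h5 := hg A hA ((land_iff (stabs_spec.1 hA).1).1 (Nat.eq_of_beq_eq_true hb))
        simp only [Function.comp_apply]
        rw [h5]
      | false =>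
        rw [if_neg (by decide), cond_false, ih', zero_add]
  exact h3 _ (fun A hA => hA)

theorem allOnes_iff : ∀ {l : List ℕ}, allOnes l = true → ∀ x ∈ l, x = 1
  | [], _, x, hx => by simp at hx
  | a :: l, h, x, hx => by
    rw [allOnes, Bool.and_eq_true] at h
    rw [List.mem_cons] at hx
    rcases hx with rfl | hx
    · exact Nat.eq_of_beq_eq_true h.1
    · exact allOnes_iff h.2 x hx

theorem sum_ones : ∀ {l : List ℕ}, (∀ x ∈ l, x = 1) → l.sum = l.length
  | [], _ => rfl
  | a :: l, h => by
    rw [List.sum_cons, h a List.mem_cons_self,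
      sum_ones (fun x hx => h x (List.mem_cons_of_mem _ hx)), List.length_cons, add_comm]

theorem ngc_eq : ∀ (f m : ℕ) (l : List ℕ), m < 4096 → (∀ x ∈ l, 0 < x) →
    l.sum = (rep m).card → l.length ≤ f → (colSys G12).cnt l (rep m) = ngc f m l
  | 0, m, l, hm, h0, hs, hf => by
    have : l = [] := List.eq_nil_of_length_eq_zero (by omega)
    subst this
    rw [cnt_ones G12 [] (rep m) (by simp) (by simpa using hs.symm)]
    rfl
  | f + 1, m, l, hm, h0, hs, hf => by
    rw [ngc]
    cases ho : allOnes l with
    | true =>
      have h1 := allOnes_iff ho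
      rw [cond_true]
      exact cnt_ones G12 l (rep m) h1 (by rw [← hs, sum_ones h1])
    | false =>
      rw [cond_false]
      have hl : l ≠ [] := by rintro rfl; simp [allOnes] at ho
      have hpos : 0 < (rep m).card := by
        rw [← hs]
        obtain ⟨a, t, rfl⟩ := List.exists_cons_of_ne_nil hl
        have := h0 a List.mem_cons_self
        rw [List.sum_cons]; omega
      have hm0 : m ≠ 0 := by
        rintro rfl
        rw [card_pos] at hpos
        obtain ⟨v, hv⟩ := hpos
        rw [mem_rep, Nat.zero_testBit] at hv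
        exact absurd hv (by decide)
      have hlog := Nat.testBit_log2 hm0
      have hlt := testBit_lt hm hlog
      set v : Fin 12 := ⟨Nat.log2 m, hlt⟩ with hv
      have hvm : v ∈ rep m := mem_rep.2 hlog
      rw [cnt_picks G12 v l (rep m) hvm]
      have key : ∀ L : List (ℕ × ℕ × List ℕ), (∀ p ∈ L, (p.2.1 :: p.2.2).Perm l) →
          (L.map (fun p => p.1 * ∑ A ∈ stv G12 v p.2.1 (rep m),
            (colSys G12).cnt p.2.2 (rep m \ A))).sum = sumP (ngc f) m L := by
        intro L
        induction L with
        | nil => intro _; rfl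
        | cons p L ih =>
          intro hL
          have hp := hL p List.mem_cons_self
          rw [List.map_cons, List.sum_cons, sumP, ih (fun q hq => hL q (List.mem_cons_of_mem _ hq))]
          congr 2
          apply sumF_eq v p.2.1
          intro A hA hsub
          obtain ⟨h1, h2, h3, h4⟩ := stabs_spec.1 hA
          rw [← rep_xor hsub]
          apply ngc_eq f _ _ (xor_lt hm h1)
          · intro x hx
            exact h0 x (hp.subset (List.mem_cons_of_mem _ hx))
          · have h5 := hp.sum_eq
            rw [List.sum_cons] at h5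
            rw [rep_xor hsub, card_sdiff_of_subset hsub, ← hs, h4]
            omega
          · have h5 := hp.length_eq
            rw [List.length_cons] at h5
            omega
      exact key _ (picks_perm l)

end Pool.Agent.TH372.SNP
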