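import Pool.Agent.TH372.SNP.Frame

/-!
# A branching rule from a family of bijections
-/

set_option autoImplicit false

namespace Pool.Agent.TH372.SNP

open MvPolynomial

theorem finite_of_equiv {α : Type*} (Y : Sys α) (P : α → Prop) (A : ℕ → α → Type)
    (h0f : ∀ s, P s → Finite (A 0 s)) (hP : ∀ s, P s → ∀ t ∈ Y.step s, P t)
    (e : ∀ k s, P s → (A (k + 1) s ≃ (Σ t : {t // t ∈ Y.step s}, A k t.1))) :
    ∀ k s, P s → Finite (A k s)
  | 0, s, hs => h0f s hs
  | k + 1, s, hs => by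
    have : ∀ t : {t // t ∈ Y.step s}, Finite (A k t.1) :=
      fun t => finite_of_equiv Y P A h0f hP e k t.1 (hP s hs t.1 t.2)
    exact Finite.of_equiv _ (e k s hs).symm

theorem follows_of_equiv {α : Type*} (Y : Sys α) (P : α → Prop) (A : ℕ → α → Type)
    (wt : ∀ k s, A k s → MvPolynomial ℕ ℤ)
    (h0f : ∀ s, P s → Finite (A 0 s)) (hP : ∀ s, P s → ∀ t ∈ Y.step s, P t)
    (h0 : ∀ s, P s → ∑ᶠ a : A 0 s, wt 0 s a = C (Y.base s : ℤ))
    (e : ∀ k s, P s → (A (k + 1) s ≃ (Σ t : {t // t ∈ Y.step s}, A k t.1)))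
    (hw : ∀ k s (hs : P s) a, wt (k + 1) s a =
      X k ^ (Y.size s - Y.size (e k s hs a).1.1) * wt k (e k s hs a).1.1 (e k s hs a).2)
    (hle : ∀ s, P s → ∀ t ∈ Y.step s, Y.size t ≤ Y.size s) :
    Y.Follows P (fun k s => ∑ᶠ a : A k s, wt k s a) where
  zero := h0
  le := hle
  closed := hP
  succ k s hs := by
    have hf := fun k s hs => finite_of_equiv Y P A h0f hP e k s hs
    have := hf (k + 1) s hs
    have : ∀ t : {t // t ∈ Y.step s}, Finite (A k t.1) := fun t => hf k t.1 (hP s hs t.1 t.2)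
    let _ : Fintype (A (k + 1) s) := Fintype.ofFinite _
    let _ : ∀ t : {t // t ∈ Y.step s}, Fintype (A k t.1) := fun t => Fintype.ofFinite _
    rw [finsum_eq_sum_of_fintype, Fintype.sum_equiv (e k s hs) (wt (k + 1) s)
      (fun p => X k ^ (Y.size s - Y.size p.1.1) * wt k p.1.1 p.2) (hw k s hs), Fintype.sum_sigma,
      ← Finset.sum_coe_sort (Y.step s)]
    refine Finset.sum_congr rfl fun t _ => ?_
    rw [finsum_eq_sum_of_fintype, Finset.mul_sum]

end Pool.Agent.TH372.SNP
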