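import Pool.Agent.TH372.SNP.Branch

/-!
# Proper colourings as a branching system
-/

set_option autoImplicit false

namespace Pool.Agent.TH372.SNP

open MvPolynomial Finset

variable {V : Type} [DecidableEq V] (G : SimpleGraph V) [DecidableRel G.Adj]

def Stable (A : Finset V) : Prop := ∀ u ∈ A, ∀ v ∈ A, ¬ G.Adj u v

instance : DecidablePred (Stable G) := fun A =>
  inferInstanceAs (Decidable (∀ u ∈ A, ∀ v ∈ A, ¬ G.Adj u v))

/-- The system of sets of vertices, one colour class being removed at each step. -/
def colSys : Sys (Finset V) where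
  step S := S.powerset.filter (fun t => Stable G (S \ t))
  size := Finset.card
  base S := if S = ∅ then 1 else 0

theorem mem_step {S t : Finset V} : t ∈ (colSys G).step S ↔ t ⊆ S ∧ Stable G (S \ t) := by
  rw [colSys, mem_filter, mem_powerset]

abbrev Col (k : ℕ) (S : Finset V) : Type :=
  {κ : V → ℕ // (∀ v, v ∉ S → κ v = 0) ∧ (∀ v ∈ S, κ v < k) ∧
    ∀ u ∈ S, ∀ v ∈ S, G.Adj u v → κ u ≠ κ v}

noncomputable def colWt (k : ℕ) (S : Finset V) (κ : Col G k S) : MvPolynomial ℕ ℤ :=
  ∏ v ∈ S, X (κ.1 v)

def colFwd (k : ℕ) (S : Finset V) (κ : Col G (k + 1) S) :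
    Σ t : {t // t ∈ (colSys G).step S}, Col G k t.1 :=
  ⟨⟨S.filter (fun v => κ.1 v < k), by
      rw [mem_step]
      refine ⟨filter_subset _ _, fun u hu v hv huv => ?_⟩
      rw [mem_sdiff, mem_filter] at hu hv
      have h1 := κ.2.2.1 u hu.1
      have h2 := κ.2.2.1 v hv.1
      have h3 : κ.1 u = k := by
        have : ¬ κ.1 u < k := fun h => hu.2 ⟨hu.1, h⟩
        omega
      have h4 : κ.1 v = k := by
        have : ¬ κ.1 v < k := fun h => hv.2 ⟨hv.1, h⟩
        omega
      exact κ.2.2.2 u hu.1 v hv.1 huv (h3.trans h4.symm)⟩,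
    ⟨fun v => if v ∈ S.filter (fun v => κ.1 v < k) then κ.1 v else 0, by
      refine ⟨fun v hv => if_neg hv, fun v hv => ?_, fun u hu v hv huv => ?_⟩
      · change v ∈ S.filter (fun v => κ.1 v < k) at hv
        change (if v ∈ S.filter (fun v => κ.1 v < k) then κ.1 v else 0) < k
        rw [if_pos hv]; exact (mem_filter.1 hv).2
      · change v ∈ S.filter (fun v => κ.1 v < k) at hv
        change u ∈ S.filter (fun v => κ.1 v < k) at hu
        change (if u ∈ S.filter (fun v => κ.1 v < k) then κ.1 u else 0) ≠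
          (if v ∈ S.filter (fun v => κ.1 v < k) then κ.1 v else 0)
        rw [if_pos hu, if_pos hv]
        exact κ.2.2.2 u (mem_filter.1 hu).1 v (mem_filter.1 hv).1 huv⟩⟩

theorem col_ext {k : ℕ} {S : Finset V} {p q : Σ t : {t // t ∈ (colSys G).step S}, Col G k t.1}
    (h1 : p.1.1 = q.1.1) (h2 : p.2.1 = q.2.1) : p = q := by
  rcases p with ⟨⟨t, ht⟩, κ, hκ⟩
  rcases q with ⟨⟨t', ht'⟩, κ', hκ'⟩
  simp only at h1 h2
  subst h1
  subst h2
  rfl

theorem colFwd_bij (k : ℕ) (S : Finset V) : Function.Bijective (colFwd G k S) := by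
  constructor
  · intro κ κ' h
    have h1 : S.filter (fun v => κ.1 v < k) = S.filter (fun v => κ'.1 v < k) :=
      congrArg (fun p => p.1.1) h
    have h2 : (fun v => if v ∈ S.filter (fun v => κ.1 v < k) then κ.1 v else 0) =
        (fun v => if v ∈ S.filter (fun v => κ'.1 v < k) then κ'.1 v else 0) :=
      congrArg (fun p => p.2.1) h
    apply Subtype.ext
    funext v
    have h3 : (if v ∈ S.filter (fun v => κ.1 v < k) then κ.1 v else 0) =
        (if v ∈ S.filter (fun v => κ'.1 v < k) then κ'.1 v else 0) := congrFun h2 v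
    rw [← h1] at h3
    by_cases hv : v ∈ S.filter (fun v => κ.1 v < k)
    · rwa [if_pos hv, if_pos hv] at h3
    · by_cases hS : v ∈ S
      · have e1 : κ.1 v = k := by
          have := κ.2.2.1 v hS
          have : ¬ κ.1 v < k := fun h => hv (mem_filter.2 ⟨hS, h⟩)
          omega
        rw [h1] at hv
        have e2 : κ'.1 v = k := by
          have := κ'.2.2.1 v hS
          have : ¬ κ'.1 v < k := fun h => hv (mem_filter.2 ⟨hS, h⟩)
          omega
        rw [e1, e2]
      · rw [κ.2.1 v hS, κ'.2.1 v hS]
  · rintro ⟨⟨t, ht⟩, κ, h1, h2, h3⟩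
    have ht' := (mem_step G).1 ht
    have key : S.filter (fun v => (if v ∈ t then κ v else if v ∈ S then k else 0) < k) = t := by
      ext v
      rw [mem_filter]
      constructor
      · rintro ⟨hS, hv⟩
        by_contra hvt
        rw [if_neg hvt, if_pos hS] at hv
        omega
      · intro hv
        rw [if_pos hv]
        exact ⟨ht'.1 hv, h2 v hv⟩
    refine ⟨⟨fun v => if v ∈ t then κ v else if v ∈ S then k else 0, ?_, ?_, ?_⟩, ?_⟩
    · intro v hv
      simp only
      rw [if_neg (fun h => hv (ht'.1 h)), if_neg hv]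
    · intro v hv
      simp only
      split_ifs with h
      · have := h2 v h; omega
      · omega
    · intro u hu v hv huv
      simp only [hu, hv, if_true]
      split_ifs with hut hvt hvt
      · exact h3 u hut v hvt huv
      · have := h2 u hut; omega
      · have := h2 v hvt; omega
      · exact absurd huv (ht'.2 u (mem_sdiff.2 ⟨hu, hut⟩) v (mem_sdiff.2 ⟨hv, hvt⟩))
    · apply col_ext
      · exact key
      · funext v
        simp only [colFwd]
        rw [key]
        split_ifs with h
        · rfl
        · exact (h1 v h).symm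

noncomputable def colEquiv (k : ℕ) (S : Finset V) :
    Col G (k + 1) S ≃ (Σ t : {t // t ∈ (colSys G).step S}, Col G k t.1) :=
  Equiv.ofBijective _ (colFwd_bij G k S)

theorem colWt_eq (k : ℕ) (S : Finset V) (κ : Col G (k + 1) S) :
    colWt G (k + 1) S κ = X k ^ ((colSys G).size S - (colSys G).size (colEquiv G k S κ).1.1) *
      colWt G k (colEquiv G k S κ).1.1 (colEquiv G k S κ).2 := by
  set t := S.filter (fun v => κ.1 v < k) with ht
  have e1 : (colEquiv G k S κ).1.1 = t := rfl
  have hts : t ⊆ S := filter_subset _ _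
  have e2 : colWt G k (colEquiv G k S κ).1.1 (colEquiv G k S κ).2 =
      ∏ v ∈ t, (X (κ.1 v) : MvPolynomial ℕ ℤ) := by
    unfold colWt
    refine prod_congr rfl fun v hv => ?_
    change v ∈ t at hv
    change (X (if v ∈ t then κ.1 v else 0) : MvPolynomial ℕ ℤ) = _
    rw [if_pos hv]
  have e3 : (colSys G).size S - (colSys G).size t = (S \ t).card := by
    rw [card_sdiff_of_subset hts]; rfl
  rw [e2, e1, e3]
  unfold colWt
  rw [← prod_sdiff hts]
  congr 1
  rw [prod_congr rfl (g := fun _ => (X k : MvPolynomial ℕ ℤ)), prod_const]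
  intro v hv
  rw [mem_sdiff, ht, mem_filter] at hv
  have h1 := κ.2.2.1 v hv.1
  have h2 : ¬ κ.1 v < k := fun h => hv.2 ⟨hv.1, h⟩
  have h3 : κ.1 v = k := by omega
  rw [h3]

theorem col_zero (S : Finset V) :
    ∑ᶠ a : Col G 0 S, colWt G 0 S a = C ((colSys G).base S : ℤ) := by
  by_cases hS : S = ∅
  · subst hS
    let _ : Unique (Col G 0 (∅ : Finset V)) :=
      { default := ⟨fun _ => 0, by simp⟩
        uniq := fun κ => Subtype.ext (funext fun v => κ.2.1 v (notMem_empty v)) }
    rw [finsum_unique]
    simp [colWt, colSys]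
  · have : IsEmpty (Col G 0 S) := by
      constructor
      intro κ
      obtain ⟨v, hv⟩ := nonempty_iff_ne_empty.2 hS
      exact absurd (κ.2.2.1 v hv) (Nat.not_lt_zero _)
    rw [finsum_of_isEmpty]
    simp [colSys, hS]

theorem col_finite_zero (S : Finset V) : Finite (Col G 0 S) := by
  have : Subsingleton (Col G 0 S) := by
    constructor
    intro κ κ'
    apply Subtype.ext
    funext v
    by_cases hv : v ∈ S
    · exact absurd (κ.2.2.1 v hv) (Nat.not_lt_zero _)
    · rw [κ.2.1 v hv, κ'.2.1 v hv]
  infer_instance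

/-- The chromatic polynomial in `k` variables of the graph induced on `S`. -/
noncomputable def colPoly (k : ℕ) (S : Finset V) : MvPolynomial ℕ ℤ :=
  ∑ᶠ κ : Col G k S, colWt G k S κ

theorem colPoly_follows : (colSys G).Follows (fun _ => True) (colPoly G) :=
  follows_of_equiv (colSys G) _ (fun k S => Col G k S) (colWt G) (fun S _ => col_finite_zero G S)
    (fun _ _ _ _ => trivial) (fun S _ => col_zero G S)
    (fun k S _ => colEquiv G k S) (fun k S _ => colWt_eq G k S)
    (fun _ _ _ ht => card_le_card ((mem_step G).1 ht).1)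

theorem colPoly_univ [Fintype V] (k : ℕ) :
    (∑ᶠ κ : {κ : V → Fin k // ∀ u v, G.Adj u v → κ u ≠ κ v},
      ∏ v, (MvPolynomial.X ((κ.1 v : ℕ)) : MvPolynomial ℕ ℤ)) = colPoly G k univ := by
  refine finsum_eq_of_bijective
    (fun κ => (⟨fun v => (κ.1 v : ℕ), fun v hv => absurd (mem_univ v) hv, fun v _ => (κ.1 v).2,
      fun u _ v _ huv h => κ.2 u v huv (Fin.ext h)⟩ : Col G k univ)) ?_ (fun κ => rfl)
  constructor
  · intro κ κ' h
    apply Subtype.ext
    funext v
    apply Fin.ext
    exact congrFun (congrArg Subtype.val h) v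
  · rintro ⟨κ, h1, h2, h3⟩
    refine ⟨⟨fun v => ⟨κ v, h2 v (mem_univ v)⟩, fun u v huv h => ?_⟩, rfl⟩
    exact h3 u (mem_univ u) v (mem_univ v) huv (congrArg Fin.val h)

theorem col_nice : (colSys G).Nice (fun _ => True) where
  closed _ _ _ _ := trivial
  self S _ := (mem_step G).2 ⟨Subset.refl _, by simp [Stable]⟩
  eq_of_size S _ t ht h := eq_of_subset_of_card_le ((mem_step G).1 ht).1 (le_of_eq h.symm)
  base S _ h := by
    by_contra hS
    apply h
    change (if S = ∅ then 1 else 0) = 0
    rw [if_neg]
    rintro rfl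
    exact hS (card_empty (α := V))
  swap a b l S _ := by
    simp only [Sys.cnt_cons]
    have h1 : ∀ a b : ℕ, (∑ t ∈ (colSys G).step S, if (colSys G).size t + a = (colSys G).size S then
        ∑ u ∈ (colSys G).step t, (if (colSys G).size u + b = (colSys G).size t then
          (colSys G).cnt l u else 0) else 0) =
        ∑ p ∈ ((S.powerset ×ˢ S.powerset).filter (fun p : Finset V × Finset V =>
          Disjoint p.1 p.2 ∧ Stable G p.1 ∧ Stable G p.2 ∧ p.1.card = a ∧ p.2.card = b)),
          (colSys G).cnt l (S \ (p.1 ∪ p.2)) := by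
      intro a b
      have h2 : ∀ t ∈ (colSys G).step S, (if (colSys G).size t + a = (colSys G).size S then
          ∑ u ∈ (colSys G).step t, (if (colSys G).size u + b = (colSys G).size t then
          (colSys G).cnt l u else 0) else 0) =
          ∑ u ∈ ((colSys G).step t).filter (fun u => (colSys G).size t + a = (colSys G).size S ∧
            (colSys G).size u + b = (colSys G).size t), (colSys G).cnt l u := by
        intro t _
        rw [sum_filter]
        split_ifs with h
        · simp [h]
        · simp [h]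
      rw [sum_congr rfl h2, sum_sigma']
      refine sum_bij' (fun p _ => (S \ p.1, p.1 \ p.2)) (fun p _ => ⟨S \ p.1, S \ (p.1 ∪ p.2)⟩)
        ?_ ?_ ?_ ?_ ?_
      · rintro ⟨t, u⟩ hp
        simp only [mem_sigma, mem_filter, mem_step] at hp
        obtain ⟨⟨hts, hst⟩, ⟨hut, hsu⟩, hc1, hc2⟩ := hp
        change t.card + a = S.card at hc1
        change u.card + b = t.card at hc2
        simp only [mem_filter, mem_product, mem_powerset]
        refine ⟨⟨sdiff_subset, sdiff_subset.trans hts⟩, ?_, hst, hsu, ?_, ?_⟩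
        · exact disjoint_left.2 fun v hv hv' =>
            (mem_sdiff.1 hv).2 (mem_sdiff.1 hv').1
        · rw [card_sdiff_of_subset hts]; omega
        · rw [card_sdiff_of_subset hut]; omega
      · rintro ⟨A, B⟩ hp
        simp only [mem_filter, mem_product, mem_powerset] at hp
        obtain ⟨⟨hA, hB⟩, hd, hsA, hsB, hcA, hcB⟩ := hp
        simp only [mem_sigma, mem_filter, mem_step]
        have e1 : S \ (S \ A) = A := Finset.sdiff_sdiff_eq_self hA
        have e2 : (S \ A) \ (S \ (A ∪ B)) = B := by
          ext v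
          simp only [mem_sdiff, mem_union, not_and, not_not, not_or]
          constructor
          · rintro ⟨⟨hS, hnA⟩, h⟩
            have := h hS
            tauto
          · intro hv
            exact ⟨⟨hB hv, fun h => disjoint_left.1 hd h hv⟩, fun _ _ => hv⟩
        have hsub : S \ (A ∪ B) ⊆ S \ A := sdiff_subset_sdiff (Subset.refl _) subset_union_left
        refine ⟨⟨sdiff_subset, by rw [e1]; exact hsA⟩, ⟨hsub, by rw [e2]; exact hsB⟩, ?_, ?_⟩
        · change (S \ A).card + a = S.card
          rw [card_sdiff_of_subset hA, ← hcA]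
          have := card_le_card hA
          omega
        · change (S \ (A ∪ B)).card + b = (S \ A).card
          rw [card_sdiff_of_subset (union_subset hA hB), card_sdiff_of_subset hA,
            card_union_of_disjoint hd, ← hcB]
          have := card_le_card (union_subset hA hB)
          rw [card_union_of_disjoint hd] at this
          omega
      · rintro ⟨t, u⟩ hp
        simp only [mem_sigma, mem_filter, mem_step] at hp
        obtain ⟨⟨hts, hst⟩, ⟨hut, hsu⟩, hc1, hc2⟩ := hp
        have e1 : S \ (S \ t) = t := Finset.sdiff_sdiff_eq_self hts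
        have e2 : S \ (S \ t ∪ t \ u) = u := by
          ext v
          simp only [mem_sdiff, mem_union, not_and, not_not, not_or]
          constructor
          · rintro ⟨hS, h1, h2⟩
            exact h2 (h1 hS)
          · intro hv
            exact ⟨hts (hut hv), fun _ => hut hv, fun _ => hv⟩
        simp only [e1, e2]
      · rintro ⟨A, B⟩ hp
        simp only [mem_filter, mem_product, mem_powerset] at hp
        obtain ⟨⟨hA, hB⟩, hd, hsA, hsB, hcA, hcB⟩ := hp
        have e1 : S \ (S \ A) = A := Finset.sdiff_sdiff_eq_self hA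
        have e2 : (S \ A) \ (S \ (A ∪ B)) = B := by
          ext v
          simp only [mem_sdiff, mem_union, not_and, not_not, not_or]
          constructor
          · rintro ⟨⟨hS, hnA⟩, h⟩
            have := h hS
            tauto
          · intro hv
            exact ⟨⟨hB hv, fun h => disjoint_left.1 hd h hv⟩, fun _ _ => hv⟩
        simp only [e1, e2]
      · rintro ⟨t, u⟩ hp
        simp only [mem_sigma, mem_filter, mem_step] at hp
        obtain ⟨⟨hts, hst⟩, ⟨hut, hsu⟩, hc1, hc2⟩ := hp
        have e2 : S \ (S \ t ∪ t \ u) = u := by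
          ext v
          simp only [mem_sdiff, mem_union, not_and, not_not, not_or]
          constructor
          · rintro ⟨hS, h1, h2⟩
            exact h2 (h1 hS)
          · intro hv
            exact ⟨hts (hut hv), fun _ => hut hv, fun _ => hv⟩
        simp only [e2]
    rw [h1 a b, h1 b a]
    refine sum_bij' (fun p _ => (p.2, p.1)) (fun p _ => (p.2, p.1)) ?_ ?_ ?_ ?_ ?_
    · rintro ⟨A, B⟩ hp
      simp only [mem_filter, mem_product] at hp ⊢
      obtain ⟨⟨hA, hB⟩, hd, hsA, hsB, hcA, hcB⟩ := hp
      exact ⟨⟨hB, hA⟩, hd.symm, hsB, hsA, hcB, hcA⟩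
    · rintro ⟨A, B⟩ hp
      simp only [mem_filter, mem_product] at hp ⊢
      obtain ⟨⟨hA, hB⟩, hd, hsA, hsB, hcA, hcB⟩ := hp
      exact ⟨⟨hB, hA⟩, hd.symm, hsB, hsA, hcB, hcA⟩
    · rintro ⟨A, B⟩ _; rfl
    · rintro ⟨A, B⟩ _; rfl
    · rintro ⟨A, B⟩ _
      simp only [union_comm]

end Pool.Agent.TH372.SNP
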