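import Mathlib

/-!
# Data
-/

set_option autoImplicit false

namespace Pool.Agent.TH372.SNP

/-- Neighbourhoods, as bit masks. -/
def adjL : List ℕ := [3264, 704, 896, 3840, 1216, 3840, 3859, 3863, 3308, 3310, 1017, 1001]

def adjM (u : ℕ) : ℕ := adjL.getD u 0

/-- `stT[v][a]` lists the stable sets with `a` elements containing `v`, as bit masks. -/
def stT : List (List (List ℕ)) := [
  [[], [1], [3, 5, 9, 17, 33, 257, 513], [7, 11, 13, 19, 21, 25, 35, 37, 41, 49, 259, 273, 529, 769], [15, 23, 27, 29, 39, 43, 45, 51, 53, 57, 275, 785], [31, 47, 55, 59, 61], [63]],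
  [[], [2], [3, 6, 10, 18, 34, 258, 1026, 2050], [7, 11, 14, 19, 22, 26, 35, 38, 42, 50, 259, 274, 1030, 2054, 2066, 3074], [15, 23, 27, 30, 39, 43, 46, 51, 54, 58, 275, 2070, 3078], [31, 47, 55, 59, 62], [63]],
  [[], [4], [5, 6, 12, 20, 36, 68, 1028, 2052], [7, 13, 14, 21, 22, 28, 37, 38, 44, 52, 76, 100, 1030, 2054, 2068, 3076], [15, 23, 29, 30, 39, 45, 46, 53, 54, 60, 108, 2070, 3078], [31, 47, 55, 61, 62], [63]],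
  [[], [8], [9, 10, 12, 24, 40, 72, 136], [11, 13, 14, 25, 26, 28, 41, 42, 44, 56, 76, 104, 168, 200], [15, 27, 29, 30, 43, 45, 46, 57, 58, 60, 108, 232], [31, 47, 59, 61, 62], [63]],
  [[], [16], [17, 18, 20, 24, 48, 272, 528, 2064], [19, 21, 22, 25, 26, 28, 49, 50, 52, 56, 273, 274, 529, 784, 2066, 2068], [23, 27, 29, 30, 51, 53, 54, 57, 58, 60, 275, 785, 2070], [31, 55, 59, 61, 62], [63]],
  [[], [32], [33, 34, 36, 40, 48, 96, 160], [35, 37, 38, 41, 42, 44, 49, 50, 52, 56, 100, 104, 168, 224], [39, 43, 45, 46, 51, 53, 54, 57, 58, 60, 108, 232], [47, 55, 59, 61, 62], [63]],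
  [[], [64], [68, 72, 96, 192], [76, 100, 104, 200, 224], [108, 232], [], []],
  [[], [128], [136, 160, 192], [168, 200, 224], [232], [], []],
  [[], [256], [257, 258, 272, 768], [259, 273, 274, 769, 784], [275, 785], [], []],
  [[], [512], [513, 528, 768], [529, 769, 784], [785], [], []],
  [[], [1024], [1026, 1028, 3072], [1030, 3074, 3076], [3078], [], []],
  [[], [2048], [2050, 2052, 2064, 3072], [2054, 2066, 2068, 3074, 3076], [2070, 3078], [], []]]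

/-- The Schur expansion. -/
def V0 : List (List ℕ × ℕ) := [
  ([6, 2, 2, 2], 6),
  ([6, 2, 2, 1, 1], 6),
  ([6, 2, 1, 1, 1, 1], 42),
  ([6, 1, 1, 1, 1, 1, 1], 426),
  ([5, 3, 2, 2], 6),
  ([5, 3, 2, 1, 1], 6),
  ([5, 3, 1, 1, 1, 1], 42),
  ([5, 2, 2, 2, 1], 54),
  ([5, 2, 2, 1, 1, 1], 180),
  ([5, 2, 1, 1, 1, 1, 1], 1530),
  ([5, 1, 1, 1, 1, 1, 1, 1], 11778),
  ([4, 4, 4], 6),
  ([4, 4, 3, 1], 24),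
  ([4, 4, 2, 2], 6),
  ([4, 4, 2, 1, 1], 52),
  ([4, 4, 1, 1, 1, 1], 90),
  ([4, 3, 3, 2], 12),
  ([4, 3, 3, 1, 1], 154),
  ([4, 3, 2, 2, 1], 114),
  ([4, 3, 2, 1, 1, 1], 798),
  ([4, 3, 1, 1, 1, 1, 1], 2100),
  ([4, 2, 2, 2, 2], 112),
  ([4, 2, 2, 2, 1, 1], 780),
  ([4, 2, 2, 1, 1, 1, 1], 5656),
  ([4, 2, 1, 1, 1, 1, 1, 1], 31068),
  ([4, 1, 1, 1, 1, 1, 1, 1, 1], 148746),
  ([3, 3, 3, 3], 42),
  ([3, 3, 3, 2, 1], 48),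
  ([3, 3, 3, 1, 1, 1], 1074),
  ([3, 3, 2, 2, 1, 1], 1130),
  ([3, 3, 2, 1, 1, 1, 1], 8214),
  ([3, 3, 1, 1, 1, 1, 1, 1], 22356),
  ([3, 2, 2, 2, 2, 1], 396),
  ([3, 2, 2, 2, 1, 1, 1], 8838),
  ([3, 2, 2, 1, 1, 1, 1, 1], 62386),
  ([3, 2, 1, 1, 1, 1, 1, 1, 1], 285252),
  ([3, 1, 1, 1, 1, 1, 1, 1, 1, 1], 1000608),
  ([2, 2, 2, 2, 2, 2], 1884),
  ([2, 2, 2, 2, 2, 1, 1], 2964),
  ([2, 2, 2, 2, 1, 1, 1, 1], 36822),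
  ([2, 2, 2, 1, 1, 1, 1, 1, 1], 222666),
  ([2, 2, 1, 1, 1, 1, 1, 1, 1, 1], 997578),
  ([2, 1, 1, 1, 1, 1, 1, 1, 1, 1, 1], 3387960),
  ([1, 1, 1, 1, 1, 1, 1, 1, 1, 1, 1, 1], 4495722)]

/-- The monomial expansion. -/
def tab : List (List ℕ × ℕ) := [
  ([1, 1, 1, 1, 1, 1, 1, 1, 1, 1, 1, 1], 479001600),
  ([2, 1, 1, 1, 1, 1, 1, 1, 1, 1, 1], 119750400),
  ([2, 2, 1, 1, 1, 1, 1, 1, 1, 1], 28546560),
  ([2, 2, 2, 1, 1, 1, 1, 1, 1], 6518880),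
  ([2, 2, 2, 2, 1, 1, 1, 1], 1437120),
  ([2, 2, 2, 2, 2, 1, 1], 308640),
  ([2, 2, 2, 2, 2, 2], 66240),
  ([3, 1, 1, 1, 1, 1, 1, 1, 1, 1], 13789440),
  ([3, 2, 1, 1, 1, 1, 1, 1, 1], 3039120),
  ([3, 2, 2, 1, 1, 1, 1, 1], 654480),
  ([3, 2, 2, 2, 1, 1, 1], 139608),
  ([3, 2, 2, 2, 2, 1], 29688),
  ([3, 3, 1, 1, 1, 1, 1, 1], 292320),
  ([3, 3, 2, 1, 1, 1, 1], 63024),
  ([3, 3, 2, 2, 1, 1], 13712),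
  ([3, 3, 2, 2, 2], 3000),
  ([3, 3, 3, 1, 1, 1], 6624),
  ([3, 3, 3, 2, 1], 1458),
  ([3, 3, 3, 3], 192),
  ([4, 1, 1, 1, 1, 1, 1, 1, 1], 846720),
  ([4, 2, 1, 1, 1, 1, 1, 1], 159840),
  ([4, 2, 2, 1, 1, 1, 1], 31248),
  ([4, 2, 2, 2, 1, 1], 6648),
  ([4, 2, 2, 2, 2], 1608),
  ([4, 3, 1, 1, 1, 1, 1], 12840),
  ([4, 3, 2, 1, 1, 1], 2874),
  ([4, 3, 2, 2, 1], 702),
  ([4, 3, 3, 1, 1], 368),
  ([4, 3, 3, 2], 90),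
  ([4, 4, 1, 1, 1, 1], 480),
  ([4, 4, 2, 1, 1], 136),
  ([4, 4, 2, 2], 48),
  ([4, 4, 3, 1], 30),
  ([4, 4, 4], 6),
  ([5, 1, 1, 1, 1, 1, 1, 1], 30240),
  ([5, 2, 1, 1, 1, 1, 1], 3960),
  ([5, 2, 2, 1, 1, 1], 576),
  ([5, 2, 2, 2, 1], 126),
  ([5, 3, 1, 1, 1, 1], 144),
  ([5, 3, 2, 1, 1], 24),
  ([5, 3, 2, 2], 12),
  ([5, 3, 3, 1], 0),
  ([5, 4, 1, 1, 1], 0),
  ([5, 4, 2, 1], 0),
  ([5, 4, 3], 0),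
  ([5, 5, 1, 1], 0),
  ([5, 5, 2], 0),
  ([6, 1, 1, 1, 1, 1, 1], 720),
  ([6, 2, 1, 1, 1, 1], 72),
  ([6, 2, 2, 1, 1], 12),
  ([6, 2, 2, 2], 6),
  ([6, 3, 1, 1, 1], 0),
  ([6, 3, 2, 1], 0),
  ([6, 3, 3], 0),
  ([6, 4, 1, 1], 0),
  ([6, 4, 2], 0),
  ([6, 5, 1], 0),
  ([6, 6], 0),
  ([7, 1, 1, 1, 1, 1], 0),
  ([7, 2, 1, 1, 1], 0),
  ([7, 2, 2, 1], 0),
  ([7, 3, 1, 1], 0),
  ([7, 3, 2], 0),
  ([7, 4, 1], 0),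
  ([7, 5], 0),
  ([8, 1, 1, 1, 1], 0),
  ([8, 2, 1, 1], 0),
  ([8, 2, 2], 0),
  ([8, 3, 1], 0),
  ([8, 4], 0),
  ([9, 1, 1, 1], 0),
  ([9, 2, 1], 0),
  ([9, 3], 0),
  ([10, 1, 1], 0),
  ([10, 2], 0),
  ([11, 1], 0),
  ([12], 0)]

end Pool.Agent.TH372.SNP
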