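import Pool.Agent.TH372.SNP.Shape

/-!
# Evaluating linear combinations of shapes
-/

set_option autoImplicit false

namespace Pool.Agent.TH372.SNP

open Finset

theorem sh_cnt_cons (b : ℕ) (l w : List ℕ) : shSys.cnt (b :: l) w =
    ((strips w).map (fun v => if v.sum + b = w.sum then shSys.cnt l v else 0)).sum := by
  rw [Sys.cnt_cons]
  change (∑ v ∈ (strips w).toFinset, if v.sum + b = w.sum then shSys.cnt l v else 0) = _
  rw [List.sum_toFinset _ (nodup_strips w)]

theorem strips_append_zero : ∀ (w : List ℕ), strips (w ++ [0]) = (strips w).map (· ++ [0])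
  | [] => by simp [strips]
  | a :: t => by
    have h : (t ++ [0]).headD 0 = t.headD 0 := by cases t <;> simp
    rw [List.cons_append, strips, strips, h, strips_append_zero t, List.map_flatMap]
    simp only [List.map_map]
    rfl

theorem cnt_append_zero : ∀ (l w : List ℕ), shSys.cnt l (w ++ [0]) = shSys.cnt l w
  | [], w => by simp [Sys.cnt, shSys]
  | b :: l, w => by
    rw [sh_cnt_cons, sh_cnt_cons, strips_append_zero, List.map_map]
    congr 1
    refine List.map_congr_left fun v _ => ?_
    simp only [Function.comp_apply, List.sum_append, List.sum_cons, List.sum_nil, add_zero]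
    rw [cnt_append_zero l v]

def tcons (x : ℕ) (v : List ℕ) : List ℕ :=
  match v with
  | [] => if x = 0 then [] else [x]
  | y :: t => x :: y :: t

def trim (w : List ℕ) : List ℕ := w.foldr tcons []

theorem trim_spec : ∀ (w : List ℕ), ∃ n, w = trim w ++ List.replicate n 0
  | [] => ⟨0, rfl⟩
  | a :: w => by
    obtain ⟨n, hn⟩ := trim_spec w
    have h : trim (a :: w) = tcons a (trim w) := rfl
    rw [h]
    cases hw : trim w with
    | nil =>
      rw [hw] at hn
      by_cases ha : a = 0
      · refine ⟨n + 1, ?_⟩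
        simp only [tcons, ha, if_true, List.nil_append, List.replicate_succ] at hn ⊢
        rw [← hn]
      · refine ⟨n, ?_⟩
        simp only [tcons, ha, if_false, List.nil_append] at hn ⊢
        rw [← hn]; rfl
    | cons y t =>
      rw [hw] at hn
      refine ⟨n, ?_⟩
      simp only [tcons, List.cons_append] at hn ⊢
      rw [← hn]

theorem cnt_replicate_zero (l w : List ℕ) : ∀ n, shSys.cnt l (w ++ List.replicate n 0) =
    shSys.cnt l w
  | 0 => by simp
  | n + 1 => by
    rw [List.replicate_succ', ← List.append_assoc, cnt_append_zero, cnt_replicate_zero l w n]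

theorem cnt_trim (l w : List ℕ) : shSys.cnt l (trim w) = shSys.cnt l w := by
  obtain ⟨n, hn⟩ := trim_spec w
  conv_rhs => rw [hn]
  rw [cnt_replicate_zero]

/-- Horizontal strips of a given size. -/
def stripsB : ℕ → List ℕ → List (List ℕ)
  | b, [] => if b = 0 then [[]] else []
  | b, a :: t => (List.range (min b (a - t.headD 0) + 1)).flatMap fun r =>
      (stripsB (b - r) t).map fun v => (a - r) :: v

/-- Weakly decreasing, as a recursive predicate. -/
def Dec : List ℕ → Prop
  | [] => True
  | a :: w => w.headD 0 ≤ a ∧ Dec w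

theorem mem_stripsB : ∀ {b : ℕ} {w v : List ℕ}, Dec w →
    (v ∈ stripsB b w ↔ v ∈ (strips w).filter (fun v => decide (v.sum + b = w.sum)))
  | b, [], v, _ => by
    rw [List.mem_filter, mem_strips]
    cases v with
    | nil =>
      by_cases hb : b = 0 <;> simp [stripsB, hb, Inter]
    | cons x v =>
      by_cases hb : b = 0 <;> simp [stripsB, hb, Inter]
  | b, a :: t, v, ⟨h1, h2⟩ => by
    rw [stripsB, List.mem_flatMap, List.mem_filter, mem_strips]
    constructor
    · rintro ⟨r, hr, hv⟩
      rw [List.mem_range] at hr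
      rw [List.mem_map] at hv
      obtain ⟨v', hv', rfl⟩ := hv
      rw [mem_stripsB h2, List.mem_filter, mem_strips] at hv'
      obtain ⟨h3, h4⟩ := hv'
      have h4 := of_decide_eq_true h4
      refine ⟨⟨by omega, by omega, h3⟩, ?_⟩
      rw [decide_eq_true_iff, List.sum_cons, List.sum_cons]
      omega
    · rintro ⟨h3, h4⟩
      cases v with
      | nil => exact h3.elim
      | cons x v =>
        obtain ⟨h5, h6, h7⟩ := h3
        have h4 := of_decide_eq_true h4
        rw [List.sum_cons, List.sum_cons] at h4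
        have h8 := h7.sum_le
        refine ⟨a - x, List.mem_range.2 (by omega), List.mem_map.2 ⟨v, ?_, ?_⟩⟩
        · rw [mem_stripsB h2, List.mem_filter, mem_strips]
          refine ⟨h7, ?_⟩
          rw [decide_eq_true_iff]
          omega
        · rw [Nat.sub_sub_self h6]

theorem nodup_stripsB : ∀ (b : ℕ) (w : List ℕ), Dec w → (stripsB b w).Nodup
  | b, [], _ => by
    by_cases hb : b = 0 <;> simp [stripsB, hb]
  | b, a :: t, ⟨_, h2⟩ => by
    rw [stripsB, List.nodup_flatMap]
    refine ⟨fun i _ => (nodup_stripsB _ t h2).map fun v v' h => (List.cons.inj h).2, ?_⟩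
    refine List.Pairwise.imp_of_mem ?_ (List.nodup_range (n := min b (a - t.headD 0) + 1))
    intro i j hi hj hij
    rw [List.mem_range] at hi hj
    rw [Function.onFun, List.disjoint_left]
    intro v hv hv'
    rw [List.mem_map] at hv hv'
    obtain ⟨u, _, rfl⟩ := hv
    obtain ⟨u', _, h⟩ := hv'
    rw [List.cons.injEq] at h
    omega

theorem sh_cnt_consB (b : ℕ) (l w : List ℕ) (hw : Dec w) : shSys.cnt (b :: l) w =
    ((stripsB b w).map (fun v => shSys.cnt l (trim v))).sum := by
  have h1 : (stripsB b w).Perm ((strips w).filter (fun v => decide (v.sum + b = w.sum))) :=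
    (List.perm_ext_iff_of_nodup (nodup_stripsB b w hw) ((nodup_strips w).filter _)).2
      fun v => mem_stripsB hw
  rw [(h1.map _).sum_eq, sh_cnt_cons]
  simp only [cnt_trim]
  generalize strips w = L
  induction L with
  | nil => simp
  | cons v L ih =>
    rw [List.map_cons, List.sum_cons, ih, List.filter_cons]
    by_cases h : v.sum + b = w.sum
    · simp [h]
    · simp [h]

/-! ### Linear combinations -/

/-- Boolean equality of lists. -/
def eqL : List ℕ → List ℕ → Bool
  | [], [] => true
  | a :: s, b :: t => (a == b) && eqL s t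
  | _, _ => false

theorem eqL_eq : ∀ {s t : List ℕ}, eqL s t = true → s = t
  | [], [], _ => rfl
  | a :: s, b :: t, h => by
    rw [eqL, Bool.and_eq_true, beq_iff_eq] at h
    rw [h.1, eqL_eq h.2]
  | [], _ :: _, h => by simp [eqL] at h
  | _ :: _, [], h => by simp [eqL] at h

def ins (w : List ℕ) (c : ℕ) : List (List ℕ × ℕ) → List (List ℕ × ℕ)
  | [] => [(w, c)]
  | p :: V => bif eqL w p.1 then (w, c + p.2) :: V else p :: ins w c V

def ev (V : List (List ℕ × ℕ)) (l : List ℕ) : ℕ := (V.map (fun p => p.2 * shSys.cnt l p.1)).sum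

theorem ev_cons (p : List ℕ × ℕ) (V : List (List ℕ × ℕ)) (l : List ℕ) :
    ev (p :: V) l = p.2 * shSys.cnt l p.1 + ev V l := by
  simp [ev]

theorem ev_ins (w : List ℕ) (c : ℕ) (l : List ℕ) : ∀ (V : List (List ℕ × ℕ)),
    ev (ins w c V) l = c * shSys.cnt l w + ev V l
  | [] => by simp [ins, ev]
  | p :: V => by
    rw [ins]
    cases h : eqL w p.1 with
    | false => rw [cond_false, ev_cons, ev_cons, ev_ins w c l V]; ring
    | true => rw [cond_true, ev_cons, ev_cons, ← eqL_eq h]; ring

def insAll (c : ℕ) (L : List (List ℕ)) (V : List (List ℕ × ℕ)) : List (List ℕ × ℕ) :=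
  L.foldr (fun v V => ins (trim v) c V) V

theorem ev_insAll (c : ℕ) (l : List ℕ) (V : List (List ℕ × ℕ)) : ∀ (L : List (List ℕ)),
    ev (insAll c L V) l = c * (L.map (fun v => shSys.cnt l (trim v))).sum + ev V l
  | [] => by simp [insAll]
  | v :: L => by
    have h : insAll c (v :: L) V = ins (trim v) c (insAll c L V) := rfl
    rw [h, ev_ins, ev_insAll c l V L, List.map_cons, List.sum_cons]
    ring

/-- Remove a horizontal strip of size `b` from every shape. -/
def stepV (b : ℕ) (V : List (List ℕ × ℕ)) : List (List ℕ × ℕ) :=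
  V.foldr (fun p W => insAll p.2 (stripsB b p.1) W) []

theorem ev_stepV (b : ℕ) (l : List ℕ) : ∀ (V : List (List ℕ × ℕ)), (∀ p ∈ V, Dec p.1) →
    ev (stepV b V) l = ev V (b :: l)
  | [], _ => by simp [stepV, ev]
  | p :: V, h => by
    have h1 : stepV b (p :: V) = insAll p.2 (stripsB b p.1) (stepV b V) := rfl
    rw [h1, ev_insAll, ev_cons, ev_stepV b l V (fun q hq => h q (List.mem_cons_of_mem _ hq)),
      sh_cnt_consB b l p.1 (h p List.mem_cons_self)]

/-! Decreasing lists stay decreasing. -/

theorem Dec.inter : ∀ {w v : List ℕ}, Inter w v → Dec v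
  | [], [], _ => trivial
  | a :: w, x :: v, ⟨h1, _, h3⟩ => by
    refine ⟨?_, Dec.inter h3⟩
    cases w with
    | nil => cases v with
      | nil => simp
      | cons y v => exact h3.elim
    | cons b w => cases v with
      | nil => simp
      | cons y v => exact h3.2.1.trans h1
  | [], _ :: _, h => h.elim
  | _ :: _, [], h => h.elim

theorem Dec.tcons {x : ℕ} {v : List ℕ} (h : Dec v) (hx : v.headD 0 ≤ x) : Dec (tcons x v) := by
  cases v with
  | nil =>
    by_cases h0 : x = 0
    · simp [SNP.tcons, h0, Dec]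
    · simp [SNP.tcons, h0, Dec]
  | cons y t => exact ⟨hx, h⟩

theorem headD_trim (w : List ℕ) : (trim w).headD 0 = w.headD 0 := by
  obtain ⟨n, hn⟩ := trim_spec w
  conv_rhs => rw [hn]
  cases h : trim w with
  | nil => cases n <;> simp [List.replicate_succ]
  | cons a t => simp

theorem Dec.trim : ∀ {w : List ℕ}, Dec w → Dec (trim w)
  | [], _ => trivial
  | a :: w, ⟨h1, h2⟩ => by
    have h : SNP.trim (a :: w) = SNP.tcons a (SNP.trim w) := rfl
    rw [h]
    refine Dec.tcons h2.trim ?_
    rw [headD_trim]
    exact h1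

theorem ins_dec (w : List ℕ) (c : ℕ) (hw : Dec w) : ∀ (V : List (List ℕ × ℕ)),
    (∀ p ∈ V, Dec p.1) → ∀ p ∈ ins w c V, Dec p.1
  | [], _, p, hp => by
    rw [ins, List.mem_singleton] at hp
    rw [hp]; exact hw
  | q :: V, hV, p, hp => by
    rw [ins] at hp
    cases h : eqL w q.1 with
    | false =>
      rw [h, cond_false, List.mem_cons] at hp
      rcases hp with rfl | hp
      · exact hV _ List.mem_cons_self
      · exact ins_dec w c hw V (fun r hr => hV r (List.mem_cons_of_mem _ hr)) p hp
    | true =>
      rw [h, cond_true, List.mem_cons] at hp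
      rcases hp with rfl | hp
      · exact hw
      · exact hV p (List.mem_cons_of_mem _ hp)

theorem insAll_dec (c : ℕ) : ∀ (L : List (List ℕ)) (V : List (List ℕ × ℕ)),
    (∀ v ∈ L, Dec v) → (∀ p ∈ V, Dec p.1) → ∀ p ∈ insAll c L V, Dec p.1
  | [], V, _, hV => hV
  | v :: L, V, hL, hV => by
    have h : insAll c (v :: L) V = ins (trim v) c (insAll c L V) := rfl
    rw [h]
    exact ins_dec _ _ (hL v List.mem_cons_self).trim _
      (insAll_dec c L V (fun u hu => hL u (List.mem_cons_of_mem _ hu)) hV)

theorem stepV_dec (b : ℕ) : ∀ (V : List (List ℕ × ℕ)), (∀ p ∈ V, Dec p.1) →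
    ∀ p ∈ stepV b V, Dec p.1
  | [], _, p, hp => by simp [stepV] at hp
  | q :: V, hV, p, hp => by
    have h1 : stepV b (q :: V) = insAll q.2 (stripsB b q.1) (stepV b V) := rfl
    rw [h1] at hp
    refine insAll_dec q.2 _ _ (fun v hv => ?_)
      (stepV_dec b V (fun r hr => hV r (List.mem_cons_of_mem _ hr))) p hp
    rw [mem_stripsB (hV q List.mem_cons_self), List.mem_filter, mem_strips] at hv
    exact Dec.inter hv.1

/-- The sum of the coefficients. -/
def total : List (List ℕ × ℕ) → ℕ
  | [] => 0
  | p :: V => (if p.1.sum = 0 then p.2 else 0) + total V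

theorem ev_nil : ∀ (V : List (List ℕ × ℕ)), ev V [] = total V
  | [] => rfl
  | p :: V => by
    rw [ev_cons, ev_nil V, total]
    congr 1
    change p.2 * (if p.1.sum = 0 then 1 else 0) = _
    split_ifs <;> simp

/-- The table of all values at partitions of `n` with parts at most `m`. -/
def evalTree : ℕ → ℕ → ℕ → List (List ℕ × ℕ) → List (List ℕ × ℕ)
  | 0, n, _, V => if n = 0 then [([], total V)] else []
  | f + 1, n, m, V => if n = 0 then [([], total V)] else
      (List.range m).flatMap fun i => if i + 1 ≤ n then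
        (evalTree f (n - (i + 1)) (i + 1) (stepV (i + 1) V)).map
          (fun p => ((i + 1) :: p.1, p.2)) else []

theorem mem_evalTree : ∀ (f n m : ℕ) (V : List (List ℕ × ℕ)) (l : List ℕ), (∀ p ∈ V, Dec p.1) →
    l.Pairwise (· ≥ ·) → (∀ x ∈ l, 0 < x) → l.sum = n → (∀ x ∈ l, x ≤ m) → l.length ≤ f →
    (l, ev V l) ∈ evalTree f n m V
  | 0, n, m, V, l, hV, _, _, hs, _, hf => by
    have : l = [] := List.eq_nil_of_length_eq_zero (by omega)
    subst this
    rw [List.sum_nil] at hs
    rw [evalTree, if_pos hs.symm, ev_nil]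
    exact List.mem_cons_self
  | f + 1, n, m, V, [], hV, _, _, hs, _, hf => by
    rw [List.sum_nil] at hs
    rw [evalTree, if_pos hs.symm, ev_nil]
    exact List.mem_cons_self
  | f + 1, n, m, V, a :: l, hV, hp, h0, hs, hm, hf => by
    have ha := h0 a List.mem_cons_self
    have ham := hm a List.mem_cons_self
    rw [List.sum_cons] at hs
    rw [List.pairwise_cons] at hp
    rw [evalTree, if_neg (by omega), List.mem_flatMap]
    refine ⟨a - 1, List.mem_range.2 (by omega), ?_⟩
    have h1 : a - 1 + 1 = a := by omega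
    rw [h1, if_pos (by omega), List.mem_map]
    refine ⟨(l, ev (stepV a V) l), ?_, ?_⟩
    · exact mem_evalTree f (n - a) a (stepV a V) l (stepV_dec a V hV) hp.2
        (fun x hx => h0 x (List.mem_cons_of_mem _ hx)) (by omega)
        (fun x hx => hp.1 x hx) (by simpa using hf)
    · simp only
      rw [ev_stepV a l V hV]

theorem ev_symFun (n : ℕ) : ∀ (V : List (List ℕ × ℕ)), (∀ p ∈ V, Anti p.1 ∧ p.1.sum = n) →
    SymFun n (ev V)
  | [], _ => ⟨fun _ => rfl, fun _ => rfl, fun _ h => absurd rfl h⟩
  | p :: V, h => by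
    have hp := h p List.mem_cons_self
    have h1 := sh_nice.symFun p.1 hp.1
    have h1' : SymFun p.1.sum (fun l => shSys.cnt l p.1) := h1
    rw [hp.2] at h1'
    have h2 := ev_symFun n V (fun q hq => h q (List.mem_cons_of_mem _ hq))
    refine ⟨fun {l l'} hl => ?_, fun l => ?_, fun l hl => ?_⟩
    · rw [ev_cons, ev_cons, h2.perm hl]
      have := h1'.perm hl
      rw [this]
    · rw [ev_cons, ev_cons, h2.zero_cons]
      have := h1'.zero_cons l
      rw [this]
    · rw [ev_cons] at hl
      by_cases h3 : ev V l = 0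
      · apply h1'.sum_eq l
        intro h4
        apply hl
        rw [h3, h4, mul_zero]
      · exact h2.sum_eq l h3

end Pool.Agent.TH372.SNP
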