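import Mathlib

/-!
# Frame: polynomials given by a branching rule, and their coefficients as counts on lists
-/

set_option autoImplicit false

namespace Pool.Agent.TH372.SNP

open MvPolynomial

/-- The exponent vector of a list: the head is the exponent of the variable whose index is the
length of the tail. -/
noncomputable def toF : List ℕ → (ℕ →₀ ℕ)
  | [] => 0
  | b :: l => Finsupp.single l.length b + toF l

theorem toF_of_ge : ∀ (l : List ℕ) (i : ℕ), l.length ≤ i → toF l i = 0
  | [], i, _ => by simp [toF]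
  | b :: l, i, h => by
    have h1 : l.length + 1 ≤ i := by simpa using h
    rw [toF, Finsupp.add_apply, toF_of_ge l i (by omega), Finsupp.single_eq_of_ne (by omega)]

theorem exists_toF : ∀ (k : ℕ) (m : ℕ →₀ ℕ), (∀ i, k ≤ i → m i = 0) →
    ∃ l : List ℕ, l.length = k ∧ toF l = m
  | 0, m, hm => ⟨[], rfl, by ext i; simp [toF, hm i (Nat.zero_le _)]⟩
  | k + 1, m, hm => by
    obtain ⟨l, hl, hlm⟩ := exists_toF k (m.erase k) (by
      intro i hi
      by_cases h : i = k
      · subst h; simp
      · rw [Finsupp.erase_ne h]; exact hm i (by omega))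
    refine ⟨m k :: l, by simp [hl], ?_⟩
    rw [toF, hlm, hl]
    exact Finsupp.single_add_erase k m

/-- A branching system: states, with a finite set of successors of each state. -/
structure Sys (α : Type*) where
  step : α → Finset α
  size : α → ℕ
  base : α → ℕ

namespace Sys

variable {α : Type*} (Y : Sys α)

/-- The number of weighted chains with prescribed size drops. -/
def cnt : List ℕ → α → ℕ
  | [], s => Y.base s
  | b :: l, s => ∑ t ∈ Y.step s, if Y.size t + b = Y.size s then cnt l t else 0

theorem cnt_cons (b : ℕ) (l : List ℕ) (s : α) :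
    Y.cnt (b :: l) s = ∑ t ∈ Y.step s, if Y.size t + b = Y.size s then Y.cnt l t else 0 := rfl

/-- The family `F` follows the branching rule of `Y` on the states satisfying `P`. -/
structure Follows (P : α → Prop) (F : ℕ → α → MvPolynomial ℕ ℤ) : Prop where
  zero : ∀ s, P s → F 0 s = C (Y.base s : ℤ)
  succ : ∀ k s, P s → F (k + 1) s = ∑ t ∈ Y.step s, X k ^ (Y.size s - Y.size t) * F k t
  le : ∀ s, P s → ∀ t ∈ Y.step s, Y.size t ≤ Y.size s
  closed : ∀ s, P s → ∀ t ∈ Y.step s, P t

variable {Y} {P : α → Prop}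

theorem Follows.coeff_zero {F : ℕ → α → MvPolynomial ℕ ℤ} (hF : Y.Follows P F) :
    ∀ (k : ℕ) (s : α) (_ : P s) (m : ℕ →₀ ℕ) (i : ℕ), k ≤ i → m i ≠ 0 → coeff m (F k s) = 0
  | 0, s, hs, m, i, _, hm => by
    rw [hF.zero s hs, coeff_C, if_neg]
    rintro rfl
    exact hm rfl
  | k + 1, s, hs, m, i, hi, hm => by
    rw [hF.succ k s hs, coeff_sum]
    refine Finset.sum_eq_zero fun t ht => ?_
    rw [X_pow_eq_monomial, coeff_monomial_mul']
    split_ifs with h
    · rw [one_mul]
      refine hF.coeff_zero k t (hF.closed s hs t ht) _ i (by omega) ?_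
      rw [Finsupp.tsub_apply, Finsupp.single_eq_of_ne (by omega)]
      simpa using hm
    · rfl

theorem Follows.coeff_toF {F : ℕ → α → MvPolynomial ℕ ℤ} (hF : Y.Follows P F) :
    ∀ (l : List ℕ) (s : α) (_ : P s), coeff (toF l) (F l.length s) = (Y.cnt l s : ℤ)
  | [], s, hs => by rw [toF, List.length_nil, hF.zero s hs, coeff_C, if_pos rfl]; rfl
  | b :: l, s, hs => by
    rw [List.length_cons, hF.succ _ s hs, coeff_sum, cnt_cons, Nat.cast_sum]
    refine Finset.sum_congr rfl fun t ht => ?_
    have hle := hF.le s hs t ht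
    have hPt := hF.closed s hs t ht
    rw [X_pow_eq_monomial, coeff_monomial_mul', toF]
    have hk : toF l l.length = 0 := toF_of_ge l _ le_rfl
    by_cases h1 : Y.size t + b = Y.size s
    · have h2 : Y.size s - Y.size t = b := by omega
      rw [h2, if_pos le_self_add, one_mul, add_tsub_cancel_left,
        if_pos h1, hF.coeff_toF l t hPt]
    · rw [if_neg h1, Nat.cast_zero]
      split_ifs with h
      · rw [one_mul]
        have h3 := h l.length
        simp only [Finsupp.single_eq_same, Finsupp.add_apply, hk, add_zero] at h3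
        refine hF.coeff_zero _ t hPt _ l.length le_rfl ?_
        rw [Finsupp.tsub_apply, Finsupp.add_apply, hk]
        simp only [Finsupp.single_eq_same, add_zero]
        omega
      · rfl

/-- Hypotheses making the counts symmetric functions. -/
structure Nice (Y : Sys α) (P : α → Prop) : Prop where
  closed : ∀ s, P s → ∀ t ∈ Y.step s, P t
  swap : ∀ a b l s, P s → Y.cnt (a :: b :: l) s = Y.cnt (b :: a :: l) s
  self : ∀ s, P s → s ∈ Y.step s
  eq_of_size : ∀ s, P s → ∀ t ∈ Y.step s, Y.size t = Y.size s → t = s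
  base : ∀ s, P s → Y.base s ≠ 0 → Y.size s = 0

theorem Nice.perm (hY : Nice Y P) {l l' : List ℕ} (h : l.Perm l') :
    ∀ s, P s → Y.cnt l s = Y.cnt l' s := by
  induction h with
  | nil => exact fun s _ => rfl
  | cons x _ ih =>
    intro s hs
    rw [cnt_cons, cnt_cons]
    refine Finset.sum_congr rfl fun t ht => ?_
    rw [ih t (hY.closed s hs t ht)]
  | swap x y l => exact fun s hs => hY.swap _ _ _ _ hs
  | trans _ _ ih1 ih2 => exact fun s hs => (ih1 s hs).trans (ih2 s hs)

theorem Nice.zero_cons (hY : Nice Y P) (l : List ℕ) (s : α) (hs : P s) :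
    Y.cnt (0 :: l) s = Y.cnt l s := by
  rw [cnt_cons, Finset.sum_eq_single s]
  · simp
  · intro t ht hts
    rw [if_neg]
    intro h
    exact hts (hY.eq_of_size s hs t ht (by simpa using h))
  · intro h
    exact absurd (hY.self s hs) h

theorem Nice.sum_eq (hY : Nice Y P) : ∀ (l : List ℕ) (s : α), P s → Y.cnt l s ≠ 0 →
    l.sum = Y.size s
  | [], s, hs, h => by
    rw [cnt] at h
    simp [hY.base s hs h]
  | b :: l, s, hs, h => by
    rw [cnt_cons] at h
    obtain ⟨t, htm, ht⟩ := Finset.exists_ne_zero_of_sum_ne_zero h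
    split_ifs at ht with h1
    · have := hY.sum_eq l t (hY.closed s hs t htm) ht
      rw [List.sum_cons, this]
      omega
    · exact absurd rfl ht

end Sys

/-- The properties of the coefficient function of a homogeneous symmetric function. -/
structure SymFun (n : ℕ) (g : List ℕ → ℕ) : Prop where
  perm : ∀ {l l' : List ℕ}, l.Perm l' → g l = g l'
  zero_cons : ∀ l, g (0 :: l) = g l
  sum_eq : ∀ l, g l ≠ 0 → l.sum = n

theorem Sys.Nice.symFun {α : Type*} {Y : Sys α} {P : α → Prop} (hY : Y.Nice P) (s : α) (hs : P s) :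
    SymFun (Y.size s) (fun l => Y.cnt l s) where
  perm h := hY.perm h s hs
  zero_cons l := hY.zero_cons l s hs
  sum_eq l h := hY.sum_eq l s hs h

theorem SymFun.zeros {n : ℕ} {g : List ℕ → ℕ} (hg : SymFun n g) (l : List ℕ) :
    ∀ r : ℕ, g (List.replicate r 0 ++ l) = g l
  | 0 => rfl
  | r + 1 => by
    rw [List.replicate_succ, List.cons_append, hg.zero_cons, hg.zeros l r]

theorem SymFun.filter {n : ℕ} {g : List ℕ → ℕ} (hg : SymFun n g) (l : List ℕ) :
    g l = g (l.filter (fun x => decide (0 < x))) := by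
  have h1 : (l.filter (fun x => decide (0 < x)) ++ l.filter (fun x => ! decide (0 < x))).Perm l :=
    List.filter_append_perm _ l
  have h2 : l.filter (fun x => ! decide (0 < x)) =
      List.replicate (l.filter (fun x => ! decide (0 < x))).length 0 := by
    rw [List.eq_replicate_iff]
    refine ⟨rfl, fun b hb => ?_⟩
    rw [List.mem_filter] at hb
    simpa using hb.2
  rw [← hg.perm h1, hg.perm List.perm_append_comm, h2, hg.zeros]

theorem SymFun.ext {n : ℕ} {g₁ g₂ : List ℕ → ℕ} (h₁ : SymFun n g₁) (h₂ : SymFun n g₂)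
    (h : ∀ l : List ℕ, l.Pairwise (· ≥ ·) → (∀ x ∈ l, 0 < x) → l.sum = n → g₁ l = g₂ l)
    (l : List ℕ) : g₁ l = g₂ l := by
  set f := l.filter (fun x => decide (0 < x)) with hf
  set s := f.insertionSort (· ≥ ·) with hs
  have hp : f.Perm s := (List.perm_insertionSort _ f).symm
  rw [h₁.filter l, h₂.filter l, ← hf, h₁.perm hp, h₂.perm hp]
  by_cases hsum : s.sum = n
  · refine h s (List.pairwise_insertionSort _ f) (fun x hx => ?_) hsum
    have : x ∈ f := (hp.mem_iff).2 hx
    rw [hf, List.mem_filter] at this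
    simpa using this.2
  · have e1 : g₁ s = 0 := by
      by_contra h0
      exact hsum (h₁.sum_eq s h0)
    have e2 : g₂ s = 0 := by
      by_contra h0
      exact hsum (h₂.sum_eq s h0)
    rw [e1, e2]

end Pool.Agent.TH372.SNP
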