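import Pool.Agent.TH372.SNP.Col

/-!
# Evaluating the counts of proper colourings
-/

set_option autoImplicit false

namespace Pool.Agent.TH372.SNP

open Finset

variable {V : Type} [DecidableEq V] (G : SimpleGraph V) [DecidableRel G.Adj]

/-- Choices of an entry of a list, with the remaining list. -/
def sel : List ℕ → List (ℕ × List ℕ)
  | [] => []
  | a :: t => (a, t) :: (sel t).map (fun p => (p.1, a :: p.2))

/-- The same, with multiplicities. -/
def picks : List ℕ → List (ℕ × ℕ × List ℕ)
  | [] => []
  | a :: t => match picks t with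
    | [] => [(1, a, t)]
    | p :: rest => bif Nat.beq a p.2.1
        then (p.1 + 1, a, t) :: rest.map (fun q => (q.1, q.2.1, a :: q.2.2))
        else (1, a, t) :: (p :: rest).map (fun q => (q.1, q.2.1, a :: q.2.2))

theorem picks_perm : ∀ (l : List ℕ), ∀ p ∈ picks l, (p.2.1 :: p.2.2).Perm l
  | [], p, hp => by simp [picks] at hp
  | a :: t, p, hp => by
    have ih := picks_perm t
    rw [picks] at hp
    cases h : picks t with
    | nil =>
      rw [h] at hp
      simp only [List.mem_singleton] at hp
      rw [hp]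
    | cons q rest =>
      rw [h] at hp ih
      simp only at hp
      have hmap : ∀ r ∈ (q :: rest), (r.2.1 :: a :: r.2.2).Perm (a :: t) := fun r hr =>
        (List.Perm.swap _ _ _).trans ((ih r hr).cons a)
      cases hb : Nat.beq a q.2.1 with
      | true =>
        rw [hb, cond_true, List.mem_cons, List.mem_map] at hp
        rcases hp with rfl | ⟨r, hr, rfl⟩
        · exact List.Perm.refl _
        · exact hmap r (List.mem_cons_of_mem _ hr)
      | false =>
        rw [hb, cond_false, List.mem_cons, List.mem_map] at hp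
        rcases hp with rfl | ⟨r, hr, rfl⟩
        · exact List.Perm.refl _
        · exact hmap r hr

theorem sum_picks : ∀ (l : List ℕ) (f : ℕ → List ℕ → ℕ),
    (∀ a r r', List.Perm r r' → f a r = f a r') →
    ((picks l).map (fun p => p.1 * f p.2.1 p.2.2)).sum = ((sel l).map (fun p => f p.1 p.2)).sum
  | [], f, _ => rfl
  | a :: t, f, hf => by
    have ih := sum_picks t (fun b r => f b (a :: r)) (fun b r r' h => hf b _ _ (h.cons a))
    have hperm := picks_perm t
    rw [sel, List.map_cons, List.sum_cons, List.map_map]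
    have e1 : ((sel t).map ((fun p : ℕ × List ℕ => f p.1 p.2) ∘ fun p => (p.1, a :: p.2))).sum =
        ((sel t).map (fun p => f p.1 (a :: p.2))).sum := rfl
    rw [e1, ← ih, picks]
    cases h : picks t with
    | nil => simp
    | cons q rest =>
      simp only
      have e2 : (((fun q : ℕ × ℕ × List ℕ => (q.1, q.2.1, a :: q.2.2)))) = 
        (((fun q : ℕ × ℕ × List ℕ => (q.1, q.2.1, a :: q.2.2)))) := rfl
      cases hb : Nat.beq a q.2.1 with
      | true =>
        rw [cond_true, List.map_cons, List.map_cons, List.sum_cons, List.sum_cons, List.map_map]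
        have hq : a = q.2.1 := Nat.eq_of_beq_eq_true hb
        have h3 := hperm q (by rw [h]; exact List.mem_cons_self)
        have h4 : f q.2.1 (a :: q.2.2) = f a t := by
          rw [← hq]
          rw [← hq] at h3
          exact hf a _ _ h3
        have h5 : (rest.map ((fun p : ℕ × ℕ × List ℕ => p.1 * f p.2.1 p.2.2) ∘
          fun q => (q.1, q.2.1, a :: q.2.2))).sum =
          (rest.map (fun p => p.1 * f p.2.1 (a :: p.2.2))).sum := rfl
        rw [h4, h5]
        ring
      | false =>
        rw [cond_false, List.map_cons, List.sum_cons, List.map_map]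
        have h5 : ((q :: rest).map ((fun p : ℕ × ℕ × List ℕ => p.1 * f p.2.1 p.2.2) ∘
          fun q => (q.1, q.2.1, a :: q.2.2))).sum =
          ((q :: rest).map (fun p => p.1 * f p.2.1 (a :: p.2.2))).sum := rfl
        rw [h5, one_mul]

/-- Stable subsets of `S` with `b` elements. -/
def stb (b : ℕ) (S : Finset V) : Finset (Finset V) :=
  S.powerset.filter (fun A => Stable G A ∧ A.card = b)

theorem cnt_stb (b : ℕ) (l : List ℕ) (S : Finset V) :
    (colSys G).cnt (b :: l) S = ∑ A ∈ stb G b S, (colSys G).cnt l (S \ A) := by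
  rw [Sys.cnt_cons, ← sum_filter]
  refine sum_bij' (fun t _ => S \ t) (fun A _ => S \ A) ?_ ?_ ?_ ?_ ?_
  · intro t ht
    rw [mem_filter, mem_step] at ht
    obtain ⟨⟨h1, h2⟩, h3⟩ := ht
    change t.card + b = S.card at h3
    rw [stb, mem_filter, mem_powerset]
    refine ⟨sdiff_subset, h2, ?_⟩
    rw [card_sdiff_of_subset h1]; omega
  · intro A hA
    rw [stb, mem_filter, mem_powerset] at hA
    obtain ⟨h1, h2, h3⟩ := hA
    rw [mem_filter, mem_step, Finset.sdiff_sdiff_eq_self h1]
    refine ⟨⟨sdiff_subset, h2⟩, ?_⟩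
    change (S \ A).card + b = S.card
    rw [card_sdiff_of_subset h1]
    have := card_le_card h1
    omega
  · intro t ht
    rw [mem_filter, mem_step] at ht
    exact Finset.sdiff_sdiff_eq_self ht.1.1
  · intro A hA
    rw [stb, mem_filter, mem_powerset] at hA
    exact Finset.sdiff_sdiff_eq_self hA.1
  · intro t ht
    rw [mem_filter, mem_step] at ht
    rw [Finset.sdiff_sdiff_eq_self ht.1.1]

/-- Stable subsets of `S` with `b` elements, containing `v`. -/
def stv (v : V) (b : ℕ) (S : Finset V) : Finset (Finset V) :=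
  (stb G b S).filter (fun A => v ∈ A)

theorem cnt_sel (v : V) : ∀ (l : List ℕ) (S : Finset V), v ∈ S →
    (colSys G).cnt l S =
      ((sel l).map (fun p => ∑ A ∈ stv G v p.1 S, (colSys G).cnt p.2 (S \ A))).sum
  | [], S, hv => by
    change (if S = ∅ then 1 else 0) = 0
    rw [if_neg]
    rintro rfl
    exact absurd hv (notMem_empty v)
  | b :: l, S, hv => by
    rw [cnt_stb, ← sum_filter_add_sum_filter_not (stb G b S) (fun A => v ∈ A), sel, List.map_cons,
      List.sum_cons]
    congr 1
    have h1 : ∀ A ∈ (stb G b S).filter (fun A => ¬ v ∈ A), (colSys G).cnt l (S \ A) =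
        ((sel l).map (fun p => ∑ B ∈ stv G v p.1 (S \ A),
          (colSys G).cnt p.2 ((S \ A) \ B))).sum := by
      intro A hA
      rw [mem_filter] at hA
      exact cnt_sel v l (S \ A) (mem_sdiff.2 ⟨hv, hA.2⟩)
    rw [sum_congr rfl h1, List.map_map]
    have h2 : ∀ (L : List (ℕ × List ℕ)), (∑ A ∈ (stb G b S).filter (fun A => ¬ v ∈ A),
        (L.map (fun p => ∑ B ∈ stv G v p.1 (S \ A), (colSys G).cnt p.2 ((S \ A) \ B))).sum) =
        (L.map (fun p => ∑ B ∈ stv G v p.1 S, (colSys G).cnt (b :: p.2) (S \ B))).sum := by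
      intro L
      induction L with
      | nil => simp
      | cons p L ih =>
        simp only [List.map_cons, List.sum_cons]
        rw [sum_add_distrib, ih]
        congr 1
        have h3 : ∀ B ∈ stv G v p.1 S, (colSys G).cnt (b :: p.2) (S \ B) =
            ∑ A ∈ stb G b (S \ B), (colSys G).cnt p.2 ((S \ B) \ A) := fun B _ => cnt_stb G _ _ _
        rw [sum_congr rfl h3, sum_sigma', sum_sigma']
        refine sum_bij' (fun q _ => ⟨q.2, q.1⟩) (fun q _ => ⟨q.2, q.1⟩) ?_ ?_ ?_ ?_ ?_
        · rintro ⟨A, B⟩ hq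
          simp only [mem_sigma, stv, stb, mem_filter, mem_powerset] at hq ⊢
          obtain ⟨⟨⟨hA, hsA, hcA⟩, hvA⟩, ⟨hB, hsB, hcB⟩, hvB⟩ := hq
          refine ⟨⟨⟨hB.trans sdiff_subset, hsB, hcB⟩, hvB⟩, ?_, hsA, hcA⟩
          intro u hu
          rw [mem_sdiff]
          exact ⟨hA hu, fun hu' => (mem_sdiff.1 (hB hu')).2 hu⟩
        · rintro ⟨B, A⟩ hq
          simp only [mem_sigma, stv, stb, mem_filter, mem_powerset] at hq ⊢
          obtain ⟨⟨⟨hB, hsB, hcB⟩, hvB⟩, hA, hsA, hcA⟩ := hq
          refine ⟨⟨⟨hA.trans sdiff_subset, hsA, hcA⟩, fun h => (mem_sdiff.1 (hA h)).2 hvB⟩,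
            ⟨?_, hsB, hcB⟩, hvB⟩
          intro u hu
          rw [mem_sdiff]
          exact ⟨hB hu, fun hu' => (mem_sdiff.1 (hA hu')).2 hu⟩
        · rintro ⟨A, B⟩ _; rfl
        · rintro ⟨A, B⟩ _; rfl
        · rintro ⟨A, B⟩ _
          simp only
          rw [sdiff_sdiff_comm]
    exact h2 (sel l)

theorem cnt_picks (v : V) (l : List ℕ) (S : Finset V) (hv : v ∈ S) :
    (colSys G).cnt l S =
      ((picks l).map (fun p => p.1 * ∑ A ∈ stv G v p.2.1 S, (colSys G).cnt p.2.2 (S \ A))).sum := by
  rw [cnt_sel G v l S hv]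
  exact (sum_picks l (fun a r => ∑ A ∈ stv G v a S, (colSys G).cnt r (S \ A))
    (fun a r r' h => sum_congr rfl fun A _ => (col_nice G).perm h _ trivial)).symm

theorem stb_one (S : Finset V) : stb G 1 S = S.image (fun v => {v}) := by
  ext A
  rw [stb, mem_filter, mem_powerset, mem_image, card_eq_one]
  constructor
  · rintro ⟨h1, _, v, rfl⟩
    exact ⟨v, by simpa using h1, rfl⟩
  · rintro ⟨v, hv, rfl⟩
    refine ⟨by simpa using hv, ?_, v, rfl⟩
    intro u hu w hw
    rw [mem_singleton] at hu hw
    rw [hu, hw]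
    exact G.loopless.irrefl v

theorem cnt_ones : ∀ (l : List ℕ) (S : Finset V), (∀ x ∈ l, x = 1) → S.card = l.length →
    (colSys G).cnt l S = l.length.factorial
  | [], S, _, hS => by
    have : S = ∅ := card_eq_zero.1 hS
    subst this
    rfl
  | b :: l, S, hl, hS => by
    have hb := hl b List.mem_cons_self
    subst hb
    rw [cnt_stb, stb_one, sum_image (fun a _ b _ h => singleton_injective h)]
    have h1 : ∀ v ∈ S, (colSys G).cnt l (S \ {v}) = l.length.factorial := by
      intro v hv
      apply cnt_ones l _ (fun x hx => hl x (List.mem_cons_of_mem _ hx))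
      rw [card_sdiff_of_subset (by simpa using hv), hS]
      simp
    rw [sum_congr rfl h1, sum_const, hS, List.length_cons, Nat.factorial_succ, smul_eq_mul]

end Pool.Agent.TH372.SNP
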