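import Pool.Agent.TH372.SNP.Data
import Pool.Agent.TH372.SNP.Eval
import Pool.Agent.TH372.SNP.GEval

/-!
# Kernel computations
-/

set_option autoImplicit false

namespace Pool.Agent.TH372.SNP

def stabs (v a : ℕ) : List ℕ := (stT.getD v []).getD a []

def allOnes : List ℕ → Bool
  | [] => true
  | a :: l => Nat.beq a 1 && allOnes l

def sumF (g : ℕ → List ℕ → ℕ) (m : ℕ) (r : List ℕ) : List ℕ → ℕ
  | [] => 0
  | A :: L => (bif Nat.beq (Nat.land A m) A then g (Nat.xor m A) r else 0) + sumF g m r L

def sumP (g : ℕ → List ℕ → ℕ) (m : ℕ) : List (ℕ × ℕ × List ℕ) → ℕ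
  | [] => 0
  | p :: L => p.1 * sumF g m p.2.2 (stabs (Nat.log2 m) p.2.1) + sumP g m L

def ngc : ℕ → ℕ → List ℕ → ℕ
  | 0, _, l => bif allOnes l then l.length.factorial else 0
  | f + 1, m, l => bif allOnes l then l.length.factorial else sumP (ngc f) m (picks l)

def stableM (A : ℕ) : Bool :=
  (List.range 12).all (fun u => ! Nat.testBit A u || Nat.beq (Nat.land (adjM u) A) 0)

def pop (A : ℕ) : ℕ := ((List.range 12).filter (fun u => Nat.testBit A u)).length

/-- Every entry of the table is a stable set of the right size. -/
def check1 : Bool := (List.range 12).all fun v => (List.range 7).all fun a =>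
  (stabs v a).all fun A => Nat.blt A 4096 && Nat.testBit A v && stableM A && Nat.beq (pop A) a

/-- Every stable set is in the table. -/
def check2 : Bool := (List.range 4096).all fun A => ! stableM A ||
  (List.range 12).all fun v => ! Nat.testBit A v || (stabs v (pop A)).elem A

/-- The lists of the table are increasing. -/
def incr : List ℕ → Bool
  | [] => true
  | [_] => true
  | a :: b :: l => Nat.blt a b && incr (b :: l)

def check3 : Bool := (List.range 12).all fun v => (List.range 7).all fun a => incr (stabs v a)

set_option maxRecDepth 100000 in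
theorem check1_ok : check1 = true := by decide +kernel
set_option maxRecDepth 100000 in
theorem check2_ok : check2 = true := by decide +kernel
set_option maxRecDepth 100000 in
theorem check3_ok : check3 = true := by decide +kernel

def eqT : List (List ℕ × ℕ) → List (List ℕ × ℕ) → Bool
  | [], [] => true
  | p :: s, q :: t => eqL p.1 q.1 && Nat.beq p.2 q.2 && eqT s t
  | _, _ => false

set_option maxRecDepth 100000 in
theorem tree_ok : eqT (evalTree 12 12 12 V0) tab = true := by decide +kernel

def checkG : List (List ℕ × ℕ) → Bool
  | [] => true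
  | p :: t => Nat.beq (ngc 12 4095 p.1) p.2 && checkG t

set_option maxRecDepth 100000 in
theorem tabG_ok : checkG tab = true := by decide +kernel

end Pool.Agent.TH372.SNP
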