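import Pool.Agent.TH372.SNP.Branch

/-!
# Shapes and horizontal strips
-/

set_option autoImplicit false

namespace Pool.Agent.TH372.SNP

open MvPolynomial Finset

/-- All lists `v` interlacing `w` : `w_{i+1} ≤ v_i ≤ w_i`. -/
def strips : List ℕ → List (List ℕ)
  | [] => [[]]
  | a :: t => (List.range (a + 1 - t.headD 0)).flatMap fun i =>
      (strips t).map fun v => (t.headD 0 + i) :: v

def Inter : List ℕ → List ℕ → Prop
  | [], [] => True
  | a :: w, x :: v => w.headD 0 ≤ x ∧ x ≤ a ∧ Inter w v
  | _, _ => False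

theorem mem_strips : ∀ {w v : List ℕ}, v ∈ strips w ↔ Inter w v
  | [], [] => by simp [strips, Inter]
  | [], _ :: _ => by simp [strips, Inter]
  | a :: w, [] => by simp [strips, Inter]
  | a :: w, x :: v => by
    rw [strips, Inter, List.mem_flatMap]
    constructor
    · rintro ⟨i, hi, hv⟩
      rw [List.mem_range] at hi
      rw [List.mem_map] at hv
      obtain ⟨v', hv', he⟩ := hv
      rw [List.cons.injEq] at he
      obtain ⟨rfl, rfl⟩ := he
      exact ⟨by omega, by omega, mem_strips.1 hv'⟩
    · rintro ⟨h1, h2, h3⟩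
      refine ⟨x - w.headD 0, List.mem_range.2 (by omega), List.mem_map.2 ⟨v, mem_strips.2 h3, ?_⟩⟩
      rw [Nat.add_sub_cancel' h1]

theorem nodup_strips : ∀ (w : List ℕ), (strips w).Nodup
  | [] => by simp [strips]
  | a :: t => by
    rw [strips, List.nodup_flatMap]
    refine ⟨fun i _ => (nodup_strips t).map fun v v' h => (List.cons.inj h).2, ?_⟩
    refine List.Pairwise.imp_of_mem ?_ (List.nodup_range (n := a + 1 - t.headD 0))
    intro i j _ _ hij
    rw [Function.onFun, List.disjoint_left]
    intro v hv hv'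
    rw [List.mem_map] at hv hv'
    obtain ⟨u, _, rfl⟩ := hv
    obtain ⟨u', _, h⟩ := hv'
    rw [List.cons.injEq] at h
    omega

theorem Inter.length : ∀ {w v : List ℕ}, Inter w v → v.length = w.length
  | [], [], _ => rfl
  | a :: w, x :: v, h => by
    rw [List.length_cons, List.length_cons, h.2.2.length]
  | [], _ :: _, h => h.elim
  | _ :: _, [], h => h.elim

theorem inter_iff : ∀ {w v : List ℕ}, Inter w v ↔ v.length = w.length ∧
    ∀ i, w.getD (i + 1) 0 ≤ v.getD i 0 ∧ v.getD i 0 ≤ w.getD i 0
  | [], [] => by simp [Inter]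
  | [], _ :: _ => by simp [Inter]
  | a :: w, [] => by simp [Inter]
  | a :: w, x :: v => by
    rw [Inter, inter_iff]
    simp only [List.length_cons, Nat.add_right_cancel_iff]
    constructor
    · rintro ⟨h1, h2, h3, h4⟩
      refine ⟨h3, fun i => ?_⟩
      cases i with
      | zero =>
        simp only [Nat.zero_add, List.getD_cons_succ, List.getD_cons_zero]
        refine ⟨?_, h2⟩
        cases w with
        | nil => simp
        | cons b w => simpa using h1
      | succ i =>
        simp only [List.getD_cons_succ]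
        exact h4 i
    · rintro ⟨h3, h4⟩
      have h0 := h4 0
      simp only [Nat.zero_add, List.getD_cons_succ, List.getD_cons_zero] at h0
      refine ⟨?_, h0.2, h3, fun i => ?_⟩
      · cases w with
        | nil => simp
        | cons b w => simpa using h0.1
      · have := h4 (i + 1)
        simpa only [List.getD_cons_succ] using this

/-- Weakly decreasing lists. -/
def Anti (w : List ℕ) : Prop := ∀ i, w.getD (i + 1) 0 ≤ w.getD i 0

theorem Anti.le {w : List ℕ} (h : Anti w) {i j : ℕ} (hij : i ≤ j) : w.getD j 0 ≤ w.getD i 0 := by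
  induction hij with
  | refl => exact le_rfl
  | step _ ih => exact (h _).trans ih

theorem Inter.anti {w v : List ℕ} (h : Inter w v) : Anti v := by
  intro i
  rw [inter_iff] at h
  exact (h.2 (i + 1)).2.trans (h.2 i).1

theorem Anti.inter_self {w : List ℕ} (h : Anti w) : Inter w w :=
  inter_iff.2 ⟨rfl, fun i => ⟨h i, le_rfl⟩⟩

theorem sum_getD : ∀ (w : List ℕ), w.sum = ∑ i ∈ range w.length, w.getD i 0
  | [] => by simp
  | a :: w => by
    rw [List.sum_cons, List.length_cons, sum_range_succ', sum_getD w]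
    simp only [List.getD_cons_succ, List.getD_cons_zero]
    omega

theorem Inter.sum_le {w v : List ℕ} (h : Inter w v) : v.sum ≤ w.sum := by
  have hl := h.length
  rw [sum_getD v, sum_getD w, hl]
  exact sum_le_sum fun i _ => ((inter_iff.1 h).2 i).2

theorem Inter.eq_of_sum {w v : List ℕ} (h : Inter w v) (hs : v.sum = w.sum) : v = w := by
  have hl := h.length
  rw [sum_getD v, sum_getD w, hl] at hs
  have h1 := (sum_eq_sum_iff_of_le (fun i _ => ((inter_iff.1 h).2 i).2)).1 hs
  apply List.ext_getElem hl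
  intro i hi hi'
  have := h1 i (mem_range.2 hi')
  rwa [List.getD_eq_getElem _ _ hi, List.getD_eq_getElem _ _ hi'] at this

/-- The system of shapes, one horizontal strip being removed at each step. -/
def shSys : Sys (List ℕ) where
  step w := (strips w).toFinset
  size := List.sum
  base w := if w.sum = 0 then 1 else 0

theorem mem_shStep {w v : List ℕ} : v ∈ shSys.step w ↔ Inter w v := by
  rw [shSys, List.mem_toFinset, mem_strips]

/-! ### The involution -/

def Mid : ℕ → List ℕ → List ℕ → List ℕ → Prop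
  | _, [], [], [] => True
  | c, a :: w, y :: v, x :: u => w.headD 0 ≤ y ∧ x ≤ y ∧ y ≤ a ∧ y ≤ c ∧ Mid x w v u
  | _, _, _, _ => False

theorem mid_iff : ∀ (c : ℕ) (w v u : List ℕ), Mid c w v u ↔
    (Inter w v ∧ Inter v u ∧ v.headD 0 ≤ c)
  | c, [], [], [] => by simp [Mid, Inter]
  | c, [], [], _ :: _ => by simp [Mid, Inter]
  | c, [], _ :: _, _ => by simp [Mid, Inter]
  | c, a :: w, [], _ => by simp [Mid, Inter]
  | c, a :: w, y :: v, [] => by simp [Mid, Inter]
  | c, a :: w, y :: v, x :: u => by
    rw [Mid, mid_iff x w v u, Inter, Inter]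
    simp only [List.headD_cons]
    tauto

def mir : ℕ → List ℕ → List ℕ → List ℕ → List ℕ
  | c, a :: w, y :: v, x :: u => (max (w.headD 0) x + min a c - y) :: mir x w v u
  | _, _, _, _ => []

theorem Mid.mirror : ∀ {c : ℕ} {w v u : List ℕ}, Mid c w v u → Mid c w (mir c w v u) u
  | c, [], [], [], _ => by simp [mir, Mid]
  | c, a :: w, y :: v, x :: u, ⟨h1, h2, h3, h4, h5⟩ => by
    rw [mir, Mid]
    refine ⟨?_, ?_, ?_, ?_, h5.mirror⟩ <;> omega

theorem Mid.mirror_mirror : ∀ {c : ℕ} {w v u : List ℕ}, Mid c w v u →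
    mir c w (mir c w v u) u = v
  | c, [], [], [], _ => by simp [mir]
  | c, a :: w, y :: v, x :: u, ⟨h1, h2, h3, h4, h5⟩ => by
    rw [mir, mir, h5.mirror_mirror, List.cons.injEq]
    refine ⟨?_, rfl⟩
    omega

theorem Mid.sum : ∀ {c : ℕ} {w v u : List ℕ}, Mid c w v u →
    v.sum + (mir c w v u).sum = min (w.headD 0) c + w.tail.sum + u.sum
  | c, [], [], [], _ => by simp [mir]
  | c, a :: w, y :: v, x :: u, ⟨h1, h2, h3, h4, h5⟩ => by
    have ih := h5.sum
    rw [mir]
    simp only [List.sum_cons, List.headD_cons, List.tail_cons]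
    have hw : w.sum = w.headD 0 + w.tail.sum := by
      cases w with
      | nil => simp
      | cons b w => simp
    omega

theorem sh_swap (a b : ℕ) (l : List ℕ) (w : List ℕ) :
    shSys.cnt (a :: b :: l) w = shSys.cnt (b :: a :: l) w := by
  have h1 : ∀ a b : ℕ, shSys.cnt (a :: b :: l) w =
      ∑ p ∈ ((shSys.step w).sigma (fun v => shSys.step v)).filter
        (fun p => p.1.sum + a = w.sum ∧ p.2.sum + b = p.1.sum), shSys.cnt l p.2 := by
    intro a b
    rw [sum_filter, sum_sigma, Sys.cnt_cons]
    refine sum_congr rfl fun v _ => ?_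
    change (if v.sum + a = w.sum then shSys.cnt (b :: l) v else 0) = _
    split_ifs with h
    · rw [Sys.cnt_cons]
      refine sum_congr rfl fun u _ => ?_
      change (if u.sum + b = v.sum then _ else _) = _
      simp [h]
    · simp [h]
  have hw : w.sum = w.headD 0 + w.tail.sum := by
    cases w with
    | nil => simp
    | cons b w => simp
  have key : ∀ {v u : List ℕ}, Inter w v → Inter v u → Mid (w.headD 0) w v u := by
    intro v u h1 h2
    rw [mid_iff]
    refine ⟨h1, h2, ?_⟩
    cases w with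
    | nil => cases v with
      | nil => simp
      | cons x v => exact h1.elim
    | cons a w => cases v with
      | nil => simp
      | cons x v => exact h1.2.1
  rw [h1 a b, h1 b a]
  refine sum_bij' (fun p _ => ⟨mir (w.headD 0) w p.1 p.2, p.2⟩)
    (fun p _ => ⟨mir (w.headD 0) w p.1 p.2, p.2⟩) ?_ ?_ ?_ ?_ ?_
  · rintro ⟨v, u⟩ hp
    simp only [mem_filter, mem_sigma, mem_shStep] at hp ⊢
    obtain ⟨⟨h1, h2⟩, h3, h4⟩ := hp
    have hm := key h1 h2
    have hm' := (mid_iff _ _ _ _).1 hm.mirror
    have hs := hm.sum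
    rw [min_self] at hs
    refine ⟨⟨hm'.1, hm'.2.1⟩, ?_, ?_⟩ <;> omega
  · rintro ⟨v, u⟩ hp
    simp only [mem_filter, mem_sigma, mem_shStep] at hp ⊢
    obtain ⟨⟨h1, h2⟩, h3, h4⟩ := hp
    have hm := key h1 h2
    have hm' := (mid_iff _ _ _ _).1 hm.mirror
    have hs := hm.sum
    rw [min_self] at hs
    refine ⟨⟨hm'.1, hm'.2.1⟩, ?_, ?_⟩ <;> omega
  · rintro ⟨v, u⟩ hp
    simp only [mem_filter, mem_sigma, mem_shStep] at hp
    have e := (key hp.1.1 hp.1.2).mirror_mirror
    simp only [e]
  · rintro ⟨v, u⟩ hp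
    simp only [mem_filter, mem_sigma, mem_shStep] at hp
    have e := (key hp.1.1 hp.1.2).mirror_mirror
    simp only [e]
  · rintro ⟨v, u⟩ _
    rfl

theorem sh_nice : shSys.Nice Anti where
  closed w _ v hv := (mem_shStep.1 hv).anti
  swap a b l w _ := sh_swap a b l w
  self w hw := mem_shStep.2 hw.inter_self
  eq_of_size w _ v hv h := (mem_shStep.1 hv).eq_of_sum h
  base w _ h := by
    by_contra hw
    apply h
    exact if_neg hw

end Pool.Agent.TH372.SNP
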